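import Pool.Agent.NH7.GF.Lt

/-!
# Going up over function fields over Hilbertian fields: definitions and statements

`k` is a Hilbertian field of characteristic zero, `K` a function field of one variable over `k` which
contains the `p`-th roots of unity, `p` odd. Every `def S_... : Prop` is proved in a file of its own, as
a theorem `s_... : S_...`.
-/

set_option autoImplicit false
set_option linter.unusedSectionVars false

namespace Pool.Agent.NH7.GH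

open Pool.Agent.H525R3.FFp Filter Topology
open Pool.Agent.NH7.GU (Chr Cyc)
open Pool.Agent.NH7.BK (Pl Rp CocV Min IsV toO)
open Pool.Agent.NH7.GF

/-! ### A. The abstract part -/

section abs

variable {p : ℕ} [hp : Fact p.Prime] {G : Type} [Group G] [TopologicalSpace G] {d : Pl G} {N : ℕ}

/-- the cocycles on the normal subgroup `H` with the local conditions: trivial on the groups `I i`,
and the classes on the groups `D k ∩ H` are invariant under `D k`, up to torsion -/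
structure SelD (R : Rp p d N) (H : Subgroup G) (f : G → Fin N → ℤ_[p]) : Prop where
  coc : CocV R H f
  away : ∀ i, ∀ g ∈ d.I i, g ∈ H → f g = 0
  inv : ∀ k, ∀ s ∈ d.D k, ∃ (m : ℕ) (z : Fin N → ℤ_[p]), ∀ g ∈ d.D k, g ∈ H →
    (p : ℤ_[p]) ^ m • ((R.ρ s).mulVec (f (s⁻¹ * g * s)) - f g) = (R.ρ g).mulVec z - z

end abs

/-- A1. The twisted corestriction of such a cocycle satisfies the local conditions. -/
def S_corD : Prop := ∀ (p : ℕ) [Fact p.Prime] (O : Type) [CommRing O] [Algebra ℤ_[p] O]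
  (C : Cyc p O) (G : Type) [Group G] [TopologicalSpace G] [IsTopologicalGroup G] (d : Pl G)
  (c : Chr p G) (N : ℕ) (R : Rp p d N) (f : G → Fin N → ℤ_[p]), SelD R c.ker f →
  (∀ k, ∃ g ∈ d.D k, c.χ g ≠ 0) →
    ∃ F : G → Fin N → O, IsV C c R F ∧
    ∀ g ∈ c.ker, F g = ∑ i : ZMod p, C.z ^ i.val •
      toO O ((R.ρ (c.σ ^ i.val)).mulVec (f ((c.σ ^ i.val)⁻¹ * g * c.σ ^ i.val)))

/-- A2. The comparison. -/
def S_cmpD : Prop := ∀ (p : ℕ) [Fact p.Prime]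
  (G : Type) [Group G] [TopologicalSpace G] [IsTopologicalGroup G] (d : Pl G)
  (c : Chr p G), p ≠ 2 → (∀ k, ∃ g ∈ d.D k, c.χ g ≠ 0) → Min d c →
  ∀ (N : ℕ) (R : Rp p d N) (f : G → Fin N → ℤ_[p]), SelD R c.ker f →
    ∃ F : G → Fin N → ℤ_[p], CocV R ⊤ F ∧ (∀ i, ∀ g ∈ d.I i, F g = 0) ∧
      ∃ (m : ℕ) (z : Fin N → ℤ_[p]), ∀ g ∈ c.ker,
        (p : ℤ_[p]) ^ m • f g = F g + ((R.ρ g).mulVec z - z)

/-! ### B. The arithmetic part -/

/-- Hilbertian fields (in characteristic zero) -/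
def Hilb (k : Type) [Field k] : Prop :=
  ∀ F : Polynomial (Polynomial k),
    Irreducible (F.map (algebraMap (Polynomial k) (RatFunc k))) →
      {t : k | Irreducible (F.map (Polynomial.evalRingHom t))}.Infinite

/-- the `p`-torsion of the class group is finite -/
def PicF (k K : Type) [Field k] [Field K] [Algebra k K] (p : ℕ) : Prop :=
  ∃ s : Finset (FF.Place k K →₀ ℤ), ∀ D : FF.Place k K →₀ ℤ,
    (∃ κ : Kˣ, ∀ v, (p : ℤ) * D v = v.ord (κ : K)) →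
      ∃ D₀ ∈ s, ∃ β : Kˣ, ∀ v, D v = D₀ v + v.ord (β : K)

/-- B1. Unramified Kummer characters. -/
def S_dvdH : Prop := ∀ (k K : Type) [Field k] [Field K] [Algebra k K] (p : ℕ) [Fact p.Prime]
  (ζ : K) (hζ : IsPrimitiveRoot ζ p) (v : FF.Place k K)
  (A : ValuationSubring (SeparableClosure K)), Ab v A → ∀ κ : Kˣ,
  (∀ g ∈ Inr A, kp hζ κ g = 0) → (p : ℤ) ∣ v.ord (κ : K)

/-- B2. The valuation rings which contain `k` are those of places. -/
def S_plcH : Prop := ∀ (k K : Type) [Field k] [CharZero k] [Field K] [Algebra k K] [FF.IsFF k K],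
  (∀ O : ValuationSubring K, O ≠ ⊤ → (∀ c : k, algebraMap k K c ∈ O) →
    ∃ v : FF.Place k K, v.O = O) ∧
  ∀ A : ValuationSubring (SeparableClosure K),
    A.comap (algebraMap K (SeparableClosure K)) = ⊤ → A = ⊤

/-- B3a. The constants. -/
def S_cst : Prop := ∀ (k K : Type) [Field k] [CharZero k] [Field K] [Algebra k K] [FF.IsFF k K]
  (p : ℕ) [Fact p.Prime] (ζ : K) (hζ : IsPrimitiveRoot ζ p) (w : FF.Place k K)
  (A : ValuationSubring (SeparableClosure K)), Ab w A → ∃ s : Finset Kˣ, ∀ c : Kˣ,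
    (∀ v : FF.Place k K, v.ord (c : K) = 0) → (∀ g ∈ Dec A, kp hζ c g = 0) →
      ∃ c₀ ∈ s, ∃ β : Kˣ, c = c₀ * β ^ p

/-- B3. Finiteness. -/
def S_rfin : Prop := ∀ (k K : Type) [Field k] [CharZero k] [Field K] [Algebra k K] [FF.IsFF k K]
  (p : ℕ) [Fact p.Prime] (ζ : K) (_ : IsPrimitiveRoot ζ p), PicF k K p →
  ∀ (T : Finset (FF.Place k K)) (w : FF.Place k K),
    {x : GK K → ZMod p | Hm x ∧ (∀ v ∉ T, ∀ g ∈ Inr (Av v), x g = 0) ∧
      ∀ g ∈ Dec (Av w), x g = 0}.Finite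

/-- B4. Inert places. -/
def S_kl : Prop := ∀ (K : Type) [Field K] (E : IntermediateField K (SeparableClosure K))
  (A : ValuationSubring (SeparableClosure K)),
  (∀ A' : ValuationSubring (SeparableClosure K),
    A'.comap (algebraMap K (SeparableClosure K)) = A.comap (algebraMap K (SeparableClosure K)) →
      A'.comap (algebraMap E (SeparableClosure K)) =
        A.comap (algebraMap E (SeparableClosure K))) →
  ∀ g : GK K, ∃ τ ∈ E.fixingSubgroup, τ * g ∈ Dec A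

/-- B5. Hilbert's irreducibility theorem. -/
def S_hil : Prop := ∀ (k E : Type) [Field k] [CharZero k] [Field E] [Algebra k E] [FF.IsFF k E],
  Hilb k → ∀ h : E, Transcendental k h →
    {t : k | ∃ w : FF.Place k E, w.ord (h - algebraMap k E t) = 1 ∧
      ∀ w' : FF.Place k E, 0 < w'.ord (h - algebraMap k E t) → w' = w}.Infinite

/-- B6. Inert places in a finite extension. -/
def S_hilv : Prop := ∀ (k K : Type) [Field k] [CharZero k] [Field K] [Algebra k K] [FF.IsFF k K],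
  Hilb k → ∀ E : IntermediateField K (SeparableClosure K), FiniteDimensional K E →
  ∀ h : K, Transcendental k h → ∃ (t : k) (v : FF.Place k K),
    v.ord (h - algebraMap k K t) = 1 ∧
    (∀ v' : FF.Place k K, 0 < v'.ord (h - algebraMap k K t) → v' = v) ∧
    ∀ A A' : ValuationSubring (SeparableClosure K), Ab v A → Ab v A' →
      A.comap (algebraMap E (SeparableClosure K)) = A'.comap (algebraMap E (SeparableClosure K))

/-- B7. Elements with given poles. -/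
def S_pole : Prop := ∀ (k K : Type) [Field k] [CharZero k] [Field K] [Algebra k K] [FF.IsFF k K]
  (T : Finset (FF.Place k K)), T.Nonempty → ∃ h : K, Transcendental k h ∧ ∀ v ∈ T, v.ord h < 0

/-- B8. Local `p`-th powers. -/
def S_lz : Prop := ∀ (k K : Type) [Field k] [Field K] [Algebra k K] (p : ℕ) [Fact p.Prime]
  (ζ : K) (hζ : IsPrimitiveRoot ζ p) (v : FF.Place k K)
  (A : ValuationSubring (SeparableClosure K)), Ab v A → ∀ (h : K) (t : k) (κ : Kˣ),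
  v.ord h < 0 → (κ : K) = h ^ p - algebraMap k K t → ∀ g ∈ Dec A, kp hζ κ g = 0

/-- B9. The characters with trivial residual Selmer group. -/
def S_mn : Prop := ∀ (k K : Type) [Field k] [CharZero k] [Field K] [Algebra k K] [FF.IsFF k K]
  (p : ℕ) [Fact p.Prime] (ζ : K) (_ : IsPrimitiveRoot ζ p), Hilb k → PicF k K p →
  ∀ (S B : Finset (FF.Place k K)), S.Nonempty → ∀ χ₀ : GK K → ZMod p, Hm χ₀ →
  ∃ χ : GK K → ZMod p, Hm χ ∧ (∀ v, v ∈ B ∨ v ∈ S → ∀ g ∈ Dec (Av v), χ g = χ₀ g) ∧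
    (∃ v, v ∉ B ∧ v ∉ S ∧ ∃ g ∈ Inr (Av v), χ g ≠ 0) ∧
    ∀ x : GK K → ZMod p, Hm x →
      (∀ v ∉ S, (∀ g ∈ Inr (Av v), χ g = 0) → ∀ g ∈ Inr (Av v), x g = 0) →
      (∀ v ∉ S, (∃ g ∈ Inr (Av v), χ g ≠ 0) → ∃ a : ZMod p, ∀ g ∈ Dec (Av v), x g = a * χ g) →
      (∀ v ∈ S, ∃ a : ZMod p, ∀ g ∈ Dec (Av v), x g = a * χ g) →
      ∃ a : ZMod p, ∀ g, x g = a * χ g

/-- B10. Ramified characters. -/
def S_ram : Prop := ∀ (k K : Type) [Field k] [CharZero k] [Field K] [Algebra k K] [FF.IsFF k K]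
  (T : Finset (FF.Place k K)), ∃ κ : Kˣ, ∀ v ∈ T, v.ord (κ : K) = 1

/-! ### C. The modules -/

section mod

variable {G : Type} [Group G]

/-- `D` acts trivially on the tensor product of `M ^ (D ∩ H)` with `ℚ_p / ℤ_p`, up to `p ^ a` -/
def Bd (M : Type) [AddCommGroup M] [DistribMulAction G M] (p : ℕ) (D H : Subgroup G) : Prop :=
  ∃ a : ℕ, ∀ s ∈ D, ∀ X ∈ fx M (D ⊓ H), ∀ n : ℕ, ∃ R ∈ fx M (D ⊓ H), ∃ m : ℕ,
    p ^ m • (p ^ a • (s • X - X) - p ^ n • R) = 0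

variable [TopologicalSpace G] {p : ℕ} [hp : Fact p.Prime] {N : ℕ}

/-- the cocycles with values in `T` whose images in `M` are locally trivial come from cocycles on the
whole group -/
def DscT (M : Type) [AddCommGroup M] [DistribMulAction G M] (Ds : Set (Subgroup G))
    (ρ : G →* Matrix (Fin N) (Fin N) ℤ_[p]) (H : Subgroup G) (φ : (Fin N → ℚ_[p]) →+ M) : Prop :=
  ∀ c : H → Fin N → ℤ_[p], Continuous c →
    (∀ σ τ : H, c (σ * τ) = c σ + (ρ σ).mulVec (c τ)) →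
    (∀ D ∈ Ds, ∀ n : ℕ, ∃ P : M, ∀ σ : H, (σ : G) ∈ D →
      φ (((p : ℚ_[p]) ^ n)⁻¹ • cQ (c σ)) = (σ : G) • P - P) →
    ∃ c' : (⊤ : Subgroup G) → Fin N → ℚ_[p], Continuous c' ∧
      (∀ σ τ : (⊤ : Subgroup G), c' (σ * τ) = c' σ + mQ (ρ σ) (c' τ)) ∧
      ∃ x : Fin N → ℚ_[p], ∀ (σ : H) (τ : (⊤ : Subgroup G)), (τ : G) = σ →
        cQ (c σ) = c' τ + (mQ (ρ σ) x - x)

end mod

/-- C1. The bad places. -/
def S_inv : Prop := ∀ (p : ℕ) [Fact p.Prime] (G : Type) [Group G] [TopologicalSpace G] (N : ℕ)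
  (ρ : G →* Matrix (Fin N) (Fin N) ℤ_[p]) (M : Type) [AddCommGroup M] [DistribMulAction G M]
  (φ : (Fin N → ℚ_[p]) →+ M), Mo ρ M φ → ∀ (D H : Subgroup G) [H.Normal], Bd M p D H →
  ∀ c : H → Fin N → ℤ_[p], (∀ n : ℕ, ∃ P : M, ∀ σ : H, (σ : G) ∈ D →
      φ (((p : ℚ_[p]) ^ n)⁻¹ • cQ (c σ)) = (σ : G) • P - P) →
  ∀ s ∈ D, ∃ u : Fin N → ℚ_[p], ∀ σ τ : H, (σ : G) ∈ D → (τ : G) = s⁻¹ * σ * s →
    mQ (ρ s) (cQ (c τ)) - cQ (c σ) = mQ (ρ σ) u - u

/-- C2. The good places. -/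
def S_unr : Prop := ∀ (p : ℕ) [Fact p.Prime] (G : Type) [Group G] [TopologicalSpace G] (N : ℕ)
  (ρ : G →* Matrix (Fin N) (Fin N) ℤ_[p]) (M : Type) [AddCommGroup M] [DistribMulAction G M]
  (φ : (Fin N → ℚ_[p]) →+ M), Mo ρ M φ → ∀ (I : Subgroup G), (∀ g ∈ I, ρ g = 1) →
  (∀ P ∈ fx M I, ∃ Q ∈ fx M I, p • Q = P) →
  ∀ c : G → Fin N → ℤ_[p], (∀ n : ℕ, ∃ P : M, ∀ g ∈ I,
      φ (((p : ℚ_[p]) ^ n)⁻¹ • cQ (c g)) = g • P - P) → ∀ g ∈ I, c g = 0

/-- C3. Going up. -/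
def S_upD : Prop := ∀ (p : ℕ) [Fact p.Prime] (G : Type) [Group G] [TopologicalSpace G]
  [IsTopologicalGroup G] [CompactSpace G] (N : ℕ)
  (ρ : G →* Matrix (Fin N) (Fin N) ℤ_[p]) (M : Type) [AddCommGroup M] [DistribMulAction G M]
  (φ : (Fin N → ℚ_[p]) →+ M), Mo ρ M φ → ∀ (χ : G → ZMod p), Continuous χ →
  (∀ g h, χ (g * h) = χ g + χ h) → ∀ (Ds : Set (Subgroup G)) (H : Subgroup G),
  (∀ g, g ∈ H ↔ χ g = 0) → DscT M Ds ρ H φ → TSh M p Ds ⊤ → TSh M p Ds H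

/-- C4. The fixed elements. -/
def S_rkD : Prop := ∀ (p : ℕ) [Fact p.Prime] (G : Type) [Group G] [TopologicalSpace G]
  [IsTopologicalGroup G] (N : ℕ)
  (ρ : G →* Matrix (Fin N) (Fin N) ℤ_[p]) (M : Type) [AddCommGroup M] [DistribMulAction G M]
  (φ : (Fin N → ℚ_[p]) →+ M), Mo ρ M φ → ∀ (Ds : Set (Subgroup G)) (H : Subgroup G) [H.Normal]
  [H.FiniteIndex], DscT M Ds ρ H φ → (fx M H).FG →
  ∀ P ∈ fx M H, ∃ k : ℕ, k ≠ 0 ∧ k • P ∈ fx M (⊤ : Subgroup G)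

end Pool.Agent.NH7.GH
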