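import Pool.Agent.H793R2.HilbFin
import Pool.Agent.H880R2.Hilb.E1
import Pool.Agent.NH7.GH.Defs

/-!
# Number fields are Hilbertian
-/

set_option autoImplicit false
set_option linter.unusedSectionVars false

namespace Pool.Agent.NH7.GH.NF

open Polynomial
open Pool.Agent.H391R2.T4 (HilbField)

section scale

variable {F : Type} [Field F]

/-- scaling the roots is an automorphism of the multiplicative monoid -/
noncomputable def sc (c : F) (hc : c ≠ 0) : F[X] ≃* F[X] where
  toFun p := p.scaleRoots c
  invFun p := p.scaleRoots c⁻¹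
  left_inv p := by
    change (p.scaleRoots c).scaleRoots c⁻¹ = p
    rw [← scaleRoots_mul, mul_inv_cancel₀ hc, scaleRoots_one]
  right_inv p := by
    change (p.scaleRoots c⁻¹).scaleRoots c = p
    rw [← scaleRoots_mul, inv_mul_cancel₀ hc, scaleRoots_one]
  map_mul' p q := mul_scaleRoots_of_noZeroDivisors p q c

theorem irr_scale (c : F) (hc : c ≠ 0) (p : F[X]) :
    Irreducible (p.scaleRoots c) ↔ Irreducible p :=
  MulEquiv.irreducible_iff (sc c hc)

theorem irr_norm {p : F[X]} (hp : p ≠ 0) : Irreducible p.integralNormalization ↔ Irreducible p := by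
  have hl : p.leadingCoeff ≠ 0 := leadingCoeff_ne_zero.2 hp
  rw [← irr_scale p.leadingCoeff hl p, ← integralNormalization_mul_C_leadingCoeff]
  exact (irreducible_mul_isUnit ((isUnit_C).2 (isUnit_iff_ne_zero.2 hl))).symm

end scale

theorem hilb_of {k : Type} [Field k] [CharZero k] (h : HilbField k) : Hilb k := by
  classical
  intro F hF
  have hF0 : F ≠ 0 := by
    rintro rfl
    rw [Polynomial.map_zero] at hF
    exact hF.ne_zero rfl
  have hl : F.leadingCoeff ≠ 0 := leadingCoeff_ne_zero.2 hF0
  let e : RatFunc k ≃+* FractionRing k[X] := (RatFunc.toFractionRingRingEquiv k)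
  have hinj : Function.Injective (algebraMap k[X] (FractionRing k[X])) :=
    IsFractionRing.injective _ _
  have he : (e : RatFunc k →+* FractionRing k[X]).comp (algebraMap k[X] (RatFunc k)) =
      algebraMap k[X] (FractionRing k[X]) := by
    refine RingHom.ext fun x => ?_
    change RatFunc.toFractionRing (algebraMap k[X] (RatFunc k) x) = _
    rw [← RatFunc.ofFractionRing_algebraMap]
  have hirr : Irreducible (F.map (algebraMap k[X] (FractionRing k[X]))) := by
    rw [← he, ← Polynomial.map_map]
    exact (MulEquiv.irreducible_iff (Polynomial.mapEquiv e)).2 hF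
  have hmon : F.integralNormalization.Monic := monic_integralNormalization hF0
  have hirr2 : Irreducible (F.integralNormalization.map (algebraMap k[X] (FractionRing k[X]))) := by
    rw [← integralNormalization_map _ _ (by
      rw [Ne, map_eq_zero_iff _ hinj]
      exact hl)]
    exact (irr_norm ((Polynomial.map_ne_zero_iff hinj).2 hF0)).2 hirr
  have hirr1 : Irreducible F.integralNormalization :=
    hmon.irreducible_of_irreducible_map _ _ hirr2
  have hcz : CharZero (FractionRing k[X]) :=
    charZero_of_injective_algebraMap (R := k[X]) hinj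
  have hsep := hirr2.separable
  intro hfin
  obtain ⟨a, ha, hia⟩ := h _ hmon hirr1 hsep
    (F.leadingCoeff * ∏ b ∈ hfin.toFinset, (X - C b)) (mul_ne_zero hl
      (Finset.prod_ne_zero_iff.2 fun b _ => X_sub_C_ne_zero b))
  rw [eval_mul, eval_prod] at ha
  have ha1 := left_ne_zero_of_mul ha
  have ha2 := right_ne_zero_of_mul ha
  rw [← integralNormalization_map _ _ (by
      rw [coe_evalRingHom]
      exact ha1)] at hia
  have hFa : F.map (evalRingHom a) ≠ 0 := by
    intro h0
    have h1 := congrArg (fun q => coeff q F.natDegree) h0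
    simp only [coeff_map, coeff_zero, coe_evalRingHom] at h1
    exact ha1 h1
  have h2 : Irreducible (F.map (evalRingHom a)) := (irr_norm hFa).1 hia
  rw [Finset.prod_ne_zero_iff] at ha2
  have h3 := ha2 a (hfin.mem_toFinset.2 h2)
  simp at h3

/-- **Number fields are Hilbertian.** -/
theorem hilb_nf (k : Type) [Field k] [NumberField k] : Hilb k := by
  have hq : HilbField ℚ := Pool.Agent.H880R2.Hilb.taskE1
  exact hilb_of (Pool.Agent.H793R2.HilbFin.taskE2 ℚ k hq)

end Pool.Agent.NH7.GH.NF
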