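import Pool.Agent.NH7.GH.Defs
import Pool.Agent.NH7.BK.CorOP

/-!
# Project GH (helper7), part A1: the twisted corestriction satisfies the local conditions (helper30)
-/

set_option autoImplicit false
set_option linter.unusedSectionVars false

namespace Pool.Agent.NH7.GH

open Filter Topology
open Pool.Agent.NH7.GU (Chr Cyc)
open Pool.Agent.NH7.BK (Pl Rp CocV SelV Min IsV toO S_corO)
open Pool.Agent.NH7.BK.CorOP

namespace CorDP

variable {p : ℕ} [hp : Fact p.Prime] {G : Type} [Group G] [TopologicalSpace G]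

theorem chi_one (c : Chr p G) : c.χ 1 = 0 := by
  have h := c.m 1 1
  rw [mul_one] at h
  exact left_eq_add.1 h

theorem chi_pow (c : Chr p G) (g : G) (n : ℕ) : c.χ (g ^ n) = n * c.χ g := by
  induction n with
  | zero => rw [pow_zero, chi_one, Nat.cast_zero, zero_mul]
  | succ n ih => rw [pow_succ, c.m, ih, Nat.cast_succ, add_mul, one_mul]

theorem chi_inv (c : Chr p G) (g : G) : c.χ g⁻¹ = -c.χ g := by
  have h := c.m g⁻¹ g
  rw [inv_mul_cancel, chi_one] at h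
  exact eq_neg_of_add_eq_zero_left h.symm

theorem exists_s (c : Chr p G) (D : Subgroup G) (h : ∃ g ∈ D, c.χ g ≠ 0) :
    ∃ s ∈ D, c.χ s = 1 := by
  obtain ⟨g, hg, hχ⟩ := h
  refine ⟨g ^ (c.χ g)⁻¹.val, D.pow_mem hg _, ?_⟩
  rw [chi_pow, ZMod.natCast_zmod_val, inv_mul_cancel₀ hχ]

theorem sum_z {O : Type} [CommRing O] [Algebra ℤ_[p] O] (C : Cyc p O) :
    ∑ i : ZMod p, C.z ^ i.val = 0 := by
  have h : ∑ i : ZMod p, C.z ^ i.val = ∑ i ∈ Finset.range p, C.z ^ i := by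
    refine Finset.sum_nbij' (fun i : ZMod p => i.val) (fun n => (n : ZMod p)) ?_ ?_ ?_ ?_ ?_
    · intro i _
      exact Finset.mem_range.2 (ZMod.val_lt i)
    · intro n _
      exact Finset.mem_univ _
    · intro i _
      exact ZMod.natCast_zmod_val i
    · intro n hn
      exact ZMod.val_cast_of_lt (Finset.mem_range.1 hn)
    · intro i _
      rfl
  apply C.inj
  rw [h, mul_geom_sum, C.z_pow, sub_self]

theorem conj_coc {d : Pl G} {N : ℕ} (R : Rp p d N) {H : Subgroup G} {f : G → Fin N → ℤ_[p]}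
    (hf : CocV R H f) {h g : G} (hh : h ∈ H) (hg : g ∈ H) :
    (R.ρ h).mulVec (f (h⁻¹ * g * h)) = f g + ((R.ρ g).mulVec (f h) - f h) := by
  have h1 : f 1 = 0 := by
    have := hf.mul 1 H.one_mem 1 H.one_mem
    rw [mul_one, map_one, Matrix.one_mulVec] at this
    exact left_eq_add.1 this
  have h2 : (R.ρ h).mulVec (f h⁻¹) = -f h := by
    have := hf.mul h hh h⁻¹ (H.inv_mem hh)
    rw [mul_inv_cancel, h1] at this
    exact eq_neg_of_add_eq_zero_right this.symm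
  rw [mul_assoc, hf.mul h⁻¹ (H.inv_mem hh) (g * h) (H.mul_mem hg hh), hf.mul g hg h hh,
    Matrix.mulVec_add, h2, Matrix.mulVec_mulVec, ← map_mul, mul_inv_cancel, map_one,
    Matrix.one_mulVec]
  abel

theorem term {d : Pl G} {N : ℕ} (R : Rp p d N) (c : Chr p G) {f : G → Fin N → ℤ_[p]}
    (hf : SelD R c.ker f) (k : d.κ) {s : G} (hs : s ∈ d.D k) (hs1 : c.χ s = 1) (n : ℕ) :
    ∃ (m : ℕ) (w : Fin N → ℤ_[p]), ∀ g ∈ d.D k, g ∈ c.ker →
      (p : ℤ_[p]) ^ m • (R.ρ (c.σ ^ n)).mulVec (f ((c.σ ^ n)⁻¹ * g * c.σ ^ n)) =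
        (p : ℤ_[p]) ^ m • f g + ((R.ρ g).mulVec w - w) := by
  obtain ⟨m, z, hz⟩ := hf.inv k (s ^ n) ((d.D k).pow_mem hs n)
  obtain ⟨h, hh⟩ : ∃ h, h = (s ^ n)⁻¹ * c.σ ^ n := ⟨_, rfl⟩
  have hker : h ∈ c.ker := by
    change c.χ h = 0
    rw [hh, c.m, chi_inv, chi_pow, chi_pow, hs1, c.hσ, neg_add_cancel]
  refine ⟨m, z + (p : ℤ_[p]) ^ m • (R.ρ (s ^ n)).mulVec (f h), fun g hg hgk => ?_⟩
  have hg' : (s ^ n)⁻¹ * g * s ^ n ∈ c.ker := chi_conj c _ hgk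
  have e1 : (c.σ ^ n)⁻¹ * g * c.σ ^ n = h⁻¹ * ((s ^ n)⁻¹ * g * s ^ n) * h := by rw [hh]; group
  have e2 : s ^ n * h = c.σ ^ n := by rw [hh]; group
  have e4 : s ^ n * ((s ^ n)⁻¹ * g * s ^ n) = g * s ^ n := by group
  have e3 : (R.ρ (c.σ ^ n)).mulVec (f ((c.σ ^ n)⁻¹ * g * c.σ ^ n)) =
      (R.ρ (s ^ n)).mulVec (f ((s ^ n)⁻¹ * g * s ^ n)) +
        ((R.ρ g).mulVec ((R.ρ (s ^ n)).mulVec (f h)) - (R.ρ (s ^ n)).mulVec (f h)) := by
    rw [e1, ← e2, map_mul, ← Matrix.mulVec_mulVec, conj_coc R hf.coc hker hg', Matrix.mulVec_add,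
      Matrix.mulVec_sub, Matrix.mulVec_mulVec, ← map_mul, e4, map_mul, ← Matrix.mulVec_mulVec]
  have e5 := hz g hg hgk
  rw [smul_sub] at e5
  rw [e3, smul_add, smul_sub, Matrix.mulVec_add, Matrix.mulVec_smul, sub_eq_iff_eq_add.1 e5]
  abel

end CorDP

open CorDP in
/-- A1. -/
theorem s_corD (h : S_corO) : S_corD := by
  intro p _ O _ _ C G _ _ _ d c N R f hf hex
  let d' : Pl G :=
    { ι := d.ι, I := d.I, DI := d.DI, I_le := d.I_le, I_nor := d.I_nor, I_conj := d.I_conj,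
      κ := Empty, D := fun k => k.elim, D_conj := fun k => k.elim }
  let R' : Rp p d' N := ⟨R.ρ, R.cont, R.one, R.triv⟩
  have hf' : SelV R' c.ker f := ⟨⟨hf.coc.cont, hf.coc.mul⟩, hf.away, fun k => k.elim⟩
  obtain ⟨F, hF, h2⟩ := h p O C G d' c N R' f hf'
  refine ⟨F, ⟨hF.cont, hF.mul, hF.away, fun k => ?_⟩, h2⟩
  obtain ⟨s, hs, hs1⟩ := exists_s c (d.D k) (hex k)
  choose m w hmw using fun i : ZMod p => term R c hf k hs hs1 i.val
  set M := ∑ i : ZMod p, m i with hM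
  have hm : ∀ i, m i ≤ M := fun i => Finset.single_le_sum (f := m) (fun _ _ => Nat.zero_le _)
    (Finset.mem_univ i)
  obtain ⟨r, hr⟩ := p_dvd C M
  refine ⟨p * M, r • ∑ i : ZMod p, C.z ^ i.val • toO O ((p : ℤ_[p]) ^ (M - m i) • w i),
    fun g hg hχ => ?_⟩
  have hterm : ∀ i : ZMod p, algebraMap ℤ_[p] O ((p : ℤ_[p]) ^ M) • (C.z ^ i.val •
      toO O ((R.ρ (c.σ ^ i.val)).mulVec (f ((c.σ ^ i.val)⁻¹ * g * c.σ ^ i.val)))) =
      C.z ^ i.val • toO O ((p : ℤ_[p]) ^ M • f g) +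
        ((R.mO O g).mulVec (C.z ^ i.val • toO O ((p : ℤ_[p]) ^ (M - m i) • w i)) -
          C.z ^ i.val • toO O ((p : ℤ_[p]) ^ (M - m i) • w i)) := by
    intro i
    have h5 : (p : ℤ_[p]) ^ M •
        (R.ρ (c.σ ^ i.val)).mulVec (f ((c.σ ^ i.val)⁻¹ * g * c.σ ^ i.val)) =
        (p : ℤ_[p]) ^ M • f g + ((R.ρ g).mulVec ((p : ℤ_[p]) ^ (M - m i) • w i) -
          (p : ℤ_[p]) ^ (M - m i) • w i) := by
      rw [Matrix.mulVec_smul, ← smul_sub, ← Nat.sub_add_cancel (hm i), pow_add,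
        Nat.sub_add_cancel (hm i), mul_smul, mul_smul, hmw i g hg hχ, smul_add]
    rw [smul_comm, ← toO_smul, h5]
    generalize (p : ℤ_[p]) ^ (M - m i) • w i = v
    generalize (p : ℤ_[p]) ^ M • f g = a
    have h6 : toO O (a + ((R.ρ g).mulVec v - v)) =
        toO O a + ((R.mO O g).mulVec (toO O v) - toO O v) := by
      rw [← toO_mulVec, ← toO_sub]
      funext j
      exact map_add _ _ _
    rw [h6, Matrix.mulVec_smul, smul_add, smul_sub]
  have hsum : algebraMap ℤ_[p] O ((p : ℤ_[p]) ^ M) • F g =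
      (R.mO O g).mulVec (∑ i : ZMod p, C.z ^ i.val • toO O ((p : ℤ_[p]) ^ (M - m i) • w i)) -
        ∑ i : ZMod p, C.z ^ i.val • toO O ((p : ℤ_[p]) ^ (M - m i) • w i) := by
    rw [h2 g hχ, Finset.smul_sum, Finset.sum_congr rfl fun i _ => hterm i, Finset.sum_add_distrib,
      ← Finset.sum_smul, sum_z, zero_smul, zero_add, Finset.sum_sub_distrib, ← Matrix.mulVec_sum]
  rw [hr, mul_smul, hsum, smul_sub, Matrix.mulVec_smul]

end Pool.Agent.NH7.GH
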