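import Pool.Agent.NH7.GH.Defs
import Pool.Agent.NH7.GF.FrbP
import Pool.Agent.Helper386.D5V.Helper386_FF_Div

/-!
# The constants which are local `p`-th powers
-/

set_option autoImplicit false
set_option linter.unusedSectionVars false

namespace Pool.Agent.NH7.GH

namespace Cst

open scoped Pointwise
open Polynomial
open Pool.Agent.NH7.GF Pool.Agent.NH7.GF.Frb

/-- integral elements lie in valuation rings -/
theorem int_mem {R Ω : Type} [CommRing R] [Field Ω] (φ : R →+* Ω) (A : ValuationSubring Ω)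
    (h : ∀ a, φ a ∈ A) {x : Ω} (hx : φ.IsIntegralElem x) : x ∈ A := by
  obtain ⟨f, hf, he⟩ := hx
  let ψ : R →+* A := φ.codRestrict A h
  have hb' : IsIntegral A x := ⟨f.map ψ, hf.map _, by rw [Polynomial.eval₂_map]; exact he⟩
  obtain ⟨y, hy⟩ := (IsIntegrallyClosed.isIntegral_iff (R := A) (K := Ω)).1 hb'
  rw [← hy]
  exact y.2

/-- constants are units -/
theorem cst_val {k Ω : Type} [Field k] [Field Ω] (φ : k →+* Ω) (A : ValuationSubring Ω)
    (h : ∀ a, φ a ∈ A) {x : Ω} (hx : φ.IsIntegralElem x) (h0 : x ≠ 0) : A.valuation x = 1 := by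
  have h1 : A.valuation x ≤ 1 := (A.valuation_le_one_iff x).2 (int_mem φ A h hx)
  have h2 : φ.IsIntegralElem x⁻¹ := by
    let _ := φ.toAlgebra
    have h3 : IsIntegral k x := hx
    exact h3.inv
  have h3 : A.valuation x⁻¹ ≤ 1 := (A.valuation_le_one_iff _).2 (int_mem φ A h h2)
  rw [map_inv₀] at h3
  exact le_antisymm h1 ((inv_le_one₀ (zero_lt_iff.2 ((A.valuation.ne_zero_iff).2 h0))).1 h3)

theorem int_of_pow {k Ω : Type} [Field k] [Field Ω] (φ : k →+* Ω) {x : Ω} {n : ℕ} (hn : 0 < n)
    (hx : φ.IsIntegralElem (x ^ n)) : φ.IsIntegralElem x := by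
  let _ := φ.toAlgebra
  have h3 : IsIntegral k (x ^ n) := hx
  exact IsIntegral.of_pow hn h3

/-- the residue field of the integral closure is algebraically closed -/
theorem ac {K : Type} [Field K] [IsAlgClosed (SeparableClosure K)]
    (A : ValuationSubring (SeparableClosure K)) [hmax : (QQ A).IsMaximal] :
    @IsAlgClosed (BB A ⧸ QQ A) (Ideal.Quotient.field (QQ A)) := by
  let _ := Ideal.Quotient.field (QQ A)
  refine IsAlgClosed.of_exists_root _ fun q hq hirr => ?_
  obtain ⟨Q, hQ, hdeg, hmon⟩ := Polynomial.lifts_and_natDegree_eq_and_monic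
    (Polynomial.mem_lifts_of_surjective Ideal.Quotient.mk_surjective q) hq
  have hpos : 0 < Q.natDegree := by
    rw [hdeg]
    exact hirr.natDegree_pos
  obtain ⟨x, hx⟩ := IsAlgClosed.exists_root (Q.map (BB A).subtype) (by
    rw [degree_map_eq_of_injective Subtype.val_injective]
    exact (natDegree_pos_iff_degree_pos.1 hpos).ne')
  rw [IsRoot, eval_map] at hx
  have hxB : ∀ g : GK K, g x ∈ A := by
    intro g
    refine int_mem ((g : SeparableClosure K →+* SeparableClosure K).comp (BB A).subtype) A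
      (fun b => b.2 g) ⟨Q, hmon, ?_⟩
    have h1 := Polynomial.hom_eval₂ Q (BB A).subtype
      (g : SeparableClosure K →+* SeparableClosure K) x
    rw [hx, map_zero] at h1
    exact h1.symm
  refine ⟨Ideal.Quotient.mk (QQ A) ⟨x, hxB⟩, ?_⟩
  have h2 : Q.eval (⟨x, hxB⟩ : BB A) = 0 := by
    apply Subtype.val_injective
    have h3 := Polynomial.hom_eval₂ Q (RingHom.id (BB A)) (BB A).subtype ⟨x, hxB⟩
    rw [RingHom.comp_id] at h3
    exact h3.trans hx
  rw [← hQ, eval_map_apply, h2, map_zero]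

theorem abs_step {p : ℕ} (hp : p.Prime) {ℓ M : Type} [Field ℓ] [Field M] [Algebra ℓ M]
    [IsAlgClosed M] [Algebra.IsAlgebraic ℓ M] {z x : M} {c z0 : ℓ}
    (hxp : x ^ p = algebraMap ℓ M c) (hx0 : x ≠ 0) (hz : IsPrimitiveRoot z p)
    (hz0 : algebraMap ℓ M z0 = z) :
    (∃ r : ℓ, x = algebraMap ℓ M r) ∨ ∃ τ : M ≃ₐ[ℓ] M, τ x = z * x := by
  by_cases hex : ∃ r : ℓ, r ^ p = c
  · left
    obtain ⟨r, hr⟩ := hex
    have hr0 : algebraMap ℓ M r ≠ 0 := by
      intro h0
      have h1 := congrArg (algebraMap ℓ M) hr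
      rw [map_pow, h0, zero_pow hp.ne_zero, ← hxp] at h1
      exact pow_ne_zero p hx0 h1.symm
    have h1 : (x / algebraMap ℓ M r) ^ p = 1 := by
      rw [div_pow, ← map_pow, hr, hxp, div_self]
      rw [← hr, map_pow]
      exact pow_ne_zero p hr0
    have : NeZero p := ⟨hp.ne_zero⟩
    obtain ⟨i, hi, hi2⟩ := hz.eq_pow_of_pow_eq_one h1
    refine ⟨z0 ^ i * r, ?_⟩
    rw [map_mul, map_pow, hz0, hi2, div_mul_cancel₀ _ hr0]
  · right
    push Not at hex
    have hirr := X_pow_sub_C_irreducible_of_prime hp hex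
    have hmin : minpoly ℓ x = X ^ p - C c := by
      refine (minpoly.eq_of_irreducible_of_monic hirr ?_ (monic_X_pow_sub_C _ hp.ne_zero)).symm
      rw [map_sub, map_pow, aeval_X, aeval_C, hxp, sub_self]
    have hnorm : Normal ℓ M := by
      have h1 : IsAlgClosure ℓ M := ⟨inferInstance, inferInstance⟩
      exact IsAlgClosure.normal ℓ M
    exact minpoly.exists_algEquiv_of_root' (K := ℓ) (x := z * x) (y := x)
      (Algebra.IsAlgebraic.isAlgebraic x) (by
        rw [hmin, map_sub, map_pow, aeval_X, aeval_C, mul_pow, hz.pow_eq_one, one_mul, hxp,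
          sub_self])

section resid

variable {k K : Type} [Field k] [CharZero k] [Field K] [Algebra k K] {p : ℕ} [hp : Fact p.Prime]
  {ζ : K} (hζ : IsPrimitiveRoot ζ p) (A : ValuationSubring (SeparableClosure K))

/-- the inclusion of the constants -/
noncomputable abbrev ph (k K : Type) [Field k] [Field K] [Algebra k K] : k →+* SeparableClosure K :=
  (algebraMap K (SeparableClosure K)).comp (algebraMap k K)

include hζ in
theorem zz_int : (ph k K).IsIntegralElem (zz ζ) := by
  apply int_of_pow (ph k K) hp.out.pos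
  rw [(zz_prim hζ).pow_eq_one]
  exact RingHom.isIntegralElem_one _

include hζ in
theorem sub_val (h : ∀ a, ph k K a ∈ A) : A.valuation (zz ζ - 1) = 1 := by
  refine cst_val (ph k K) A h ?_ ?_
  · exact (zz_int hζ).sub _ (RingHom.isIntegralElem_one _)
  · intro h0
    exact (zz_prim hζ).ne_one hp.out.one_lt (sub_eq_zero.1 h0)

/-- local `p`-th powers -/
theorem resid (h : ∀ a, ph k K a ∈ A) (c : Kˣ)
    (hc : (ph k K).IsIntegralElem (algebraMap K (SeparableClosure K) c))
    (hD : ∀ g ∈ Dec A, kp hζ c g = 0) :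
    ∃ r : K, algebraMap K (SeparableClosure K) r ∈ A ∧
      A.valuation (rt p c - algebraMap K (SeparableClosure K) r) < 1 := by
  have hch : CharZero K := charZero_of_injective_algebraMap (algebraMap k K).injective
  have hch2 : CharZero (SeparableClosure K) :=
    charZero_of_injective_algebraMap (algebraMap K (SeparableClosure K)).injective
  have hperf : PerfectField (SeparableClosure K) := inferInstance
  have hac : IsAlgClosed (SeparableClosure K) := inferInstance
  have hrt := rt_pow hζ c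
  have hzA : zz ζ ∈ A := int_mem (ph k K) A h (zz_int hζ)
  have hri : (ph k K).IsIntegralElem (rt p c) := by
    apply int_of_pow (ph k K) hp.out.pos
    rw [hrt]
    exact hc
  have hrA : rt p c ∈ A := int_mem (ph k K) A h hri
  have hrv : A.valuation (rt p c) = 1 := cst_val (ph k K) A h hri (rt_ne hζ c)
  have hcA : algebraMap K (SeparableClosure K) c ∈ A := int_mem (ph k K) A h hc
  let b : BB A := ⟨rt p c, fun g => by
    rw [kp_rt hζ]
    exact A.mul_mem _ _ (pow_mem hzA _) hrA⟩
  let c' : OK A := ⟨c, hcA⟩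
  let z' : OK A := ⟨ζ, hzA⟩
  have hbc : b ^ p = algebraMap (OK A) (BB A) c' := Subtype.ext hrt
  let _ : TopologicalSpace (BB A) := ⊥
  have : DiscreteTopology (BB A) := ⟨rfl⟩
  have hcont : ContinuousSMul (GK K) (BB A) := cont_BB A
  have hint := intOK A
  have hmax := maxQQ A
  let _ : Field (OK A ⧸ IsLocalRing.maximalIdeal (OK A)) := Ideal.Quotient.field _
  let _ : Field (BB A ⧸ QQ A) := Ideal.Quotient.field _
  have hint2 : Algebra.IsIntegral (OK A ⧸ IsLocalRing.maximalIdeal (OK A)) (BB A ⧸ QQ A) :=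
    Ideal.Quotient.algebra_isIntegral_of_liesOver _ _
  have halg : Algebra.IsAlgebraic (OK A ⧸ IsLocalRing.maximalIdeal (OK A)) (BB A ⧸ QQ A) :=
    inferInstance
  have hac2 : IsAlgClosed (BB A ⧸ QQ A) := ac A
  have hxp : (Ideal.Quotient.mk (QQ A) b) ^ p = algebraMap (OK A ⧸ IsLocalRing.maximalIdeal (OK A))
      (BB A ⧸ QQ A) (Ideal.Quotient.mk _ c') := by
    rw [← map_pow, hbc]
    rfl
  have hx0 : Ideal.Quotient.mk (QQ A) b ≠ 0 := by
    rw [Ne, Ideal.Quotient.eq_zero_iff_mem, mem_QQ]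
    show ¬ A.valuation (rt p c) < 1
    rw [hrv]
    exact lt_irrefl _
  have hzp : (Ideal.Quotient.mk (QQ A) (algebraMap (OK A) (BB A) z')) ^ p = 1 := by
    rw [← map_pow]
    have : (algebraMap (OK A) (BB A) z') ^ p = 1 := Subtype.ext (zz_prim hζ).pow_eq_one
    rw [this, map_one]
  have hz1 : Ideal.Quotient.mk (QQ A) (algebraMap (OK A) (BB A) z') ≠ 1 := by
    intro h0
    rw [← map_one (Ideal.Quotient.mk (QQ A)), Ideal.Quotient.mk_eq_mk_iff_sub_mem, mem_QQ] at h0
    have h1 : A.valuation (zz ζ - 1) < 1 := h0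
    rw [sub_val hζ A h] at h1
    exact lt_irrefl _ h1
  have hzprim : IsPrimitiveRoot (Ideal.Quotient.mk (QQ A) (algebraMap (OK A) (BB A) z')) p := by
    have h1 := orderOf_eq_prime hzp hz1
    have h2 := IsPrimitiveRoot.orderOf (Ideal.Quotient.mk (QQ A) (algebraMap (OK A) (BB A) z'))
    rwa [h1] at h2
  rcases abs_step (ℓ := OK A ⧸ IsLocalRing.maximalIdeal (OK A)) (M := BB A ⧸ QQ A)
    (x := Ideal.Quotient.mk (QQ A) b) (z := Ideal.Quotient.mk (QQ A) (algebraMap (OK A) (BB A) z'))
    (z0 := Ideal.Quotient.mk _ z') hp.out hxp hx0 hzprim rfl with ⟨r, hr⟩ | ⟨τ, hτ⟩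
  · obtain ⟨r, rfl⟩ := Ideal.Quotient.mk_surjective r
    have h2 : Ideal.Quotient.mk (QQ A) b = Ideal.Quotient.mk (QQ A) (algebraMap (OK A) (BB A) r) := hr
    rw [Ideal.Quotient.mk_eq_mk_iff_sub_mem, mem_QQ] at h2
    exact ⟨(r : K), r.2, h2⟩
  · exfalso
    obtain ⟨g, hg⟩ := Ideal.Quotient.stabilizerHom_surjective_of_profinite (G := GK K)
      (IsLocalRing.maximalIdeal (OK A)) (QQ A) τ
    have hgb : Ideal.Quotient.mk (QQ A) (g.1 • b) =
        Ideal.Quotient.mk (QQ A) (algebraMap (OK A) (BB A) z') * Ideal.Quotient.mk (QQ A) b := by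
      have h1 := DFunLike.congr_fun hg (Ideal.Quotient.mk (QQ A) b)
      rw [Ideal.Quotient.stabilizerHom_apply] at h1
      exact h1.trans hτ
    obtain ⟨g1, hg1, hg1'⟩ : ∃ g1 : GK K, g1 • QQ A = QQ A ∧ Ideal.Quotient.mk (QQ A) (g1 • b) =
        Ideal.Quotient.mk (QQ A) (algebraMap (OK A) (BB A) z') * Ideal.Quotient.mk (QQ A) b :=
      ⟨g.1, g.2, hgb⟩
    have hDec : g1 ∈ Dec A := by
      apply mem_Dec_of
      intro b
      conv_rhs => rw [← hg1]
      exact Ideal.smul_mem_pointwise_smul_iff.symm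
    have hfix : g1 • b = b := by
      apply Subtype.ext
      show g1 (rt p c) = rt p c
      exact (kp_zero_iff hζ hrt).1 (hD g1 hDec)
    rw [hfix] at hg1'
    have h5 : (Ideal.Quotient.mk (QQ A) (algebraMap (OK A) (BB A) z') - 1) *
        Ideal.Quotient.mk (QQ A) b = 0 := by
      rw [sub_mul, one_mul, ← hg1', sub_self]
    rcases mul_eq_zero.1 h5 with h6 | h6
    · exact hz1 (sub_eq_zero.1 h6)
    · exact hx0 h6

end resid

section final

variable {k K : Type} [Field k] [CharZero k] [Field K] [Algebra k K] {p : ℕ} [hp : Fact p.Prime]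
  {ζ : K} (hζ : IsPrimitiveRoot ζ p)

theorem val_lt {w : FF.Place k K} {A : ValuationSubring (SeparableClosure K)} (hA : Ab w A) {x : K}
    (hx : w.Reg x) (h0 : w.red x = 0) : A.valuation (algebraMap K (SeparableClosure K) x) < 1 := by
  by_cases hx0 : x = 0
  · rw [hx0, map_zero, map_zero]
    exact zero_lt_one
  · have h1 : 0 < w.ord x := ((w.red_eq_zero_iff hx).1 h0).resolve_left hx0
    by_contra hcon
    have h2 : algebraMap K (SeparableClosure K) x⁻¹ ∈ A := by
      rw [← A.valuation_le_one_iff, map_inv₀, map_inv₀]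
      exact inv_le_one_of_one_le₀ (not_lt.1 hcon)
    have h3 : x⁻¹ ∈ w.O := by
      rw [← hA]
      exact h2
    have h4 := (w.reg_iff (inv_ne_zero hx0)).1 h3
    rw [w.ord_inv] at h4
    omega

theorem alg_of_ord [FF.IsFF k K] {f : K} (h : ∀ v : FF.Place k K, v.ord f = 0) :
    IsAlgebraic k f := by
  by_contra hcon
  obtain ⟨S, hS, -, hsum⟩ := FF.zeros (k := k) (K := K) hcon
  have h1 : S = ∅ := by
    rw [Finset.eq_empty_iff_forall_notMem]
    intro v hv
    have := (hS v).1 hv
    rw [h v] at this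
    omega
  have h2 := FF.IsFF.finite (k := k) (K := K) hcon
  have h3 : 0 < Module.finrank (IntermediateField.adjoin k {f}) K := Module.finrank_pos
  rw [h1, Finset.sum_empty] at hsum
  omega

theorem int_alg {c : K} (hc : IsAlgebraic k c) :
    (ph k K).IsIntegralElem (algebraMap K (SeparableClosure K) c) := by
  obtain ⟨f, hf, he⟩ := hc.isIntegral
  refine ⟨f, hf, ?_⟩
  have h1 := Polynomial.hom_eval₂ f (algebraMap k K) (algebraMap K (SeparableClosure K)) c
  rw [he, map_zero] at h1
  exact h1.symm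

theorem int_sum {k Ω ι : Type} [Field k] [Field Ω] (φ : k →+* Ω) (s : Finset ι) (a : ι → k)
    (b : ι → Ω) (hb : ∀ i, φ.IsIntegralElem (b i)) : φ.IsIntegralElem (∑ i ∈ s, φ (a i) * b i) := by
  let _ := φ.toAlgebra
  have h : ∀ i, IsIntegral k (φ (a i) * b i) := by
    intro i
    have h1 : IsIntegral k (b i) := hb i
    have h2 : IsIntegral k (algebraMap k Ω (a i)) := isIntegral_algebraMap
    exact h2.mul h1
  have h3 : IsIntegral k (∑ i ∈ s, φ (a i) * b i) := IsIntegral.sum _ fun i _ => h i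
  exact h3

theorem pow_of_kp {κ : Kˣ} (h : ∀ g, kp hζ κ g = 0) : ∃ β : Kˣ, β ^ p = κ := by
  have h1 : ∀ g : GK K, g (rt p κ) = rt p κ := fun g => (kp_zero_iff hζ (rt_pow hζ κ)).1 (h g)
  obtain ⟨b, hb⟩ := (InfiniteGalois.mem_range_algebraMap_iff_fixed (rt p κ)).2 h1
  have h2 : b ^ p = κ := by
    apply (algebraMap K (SeparableClosure K)).injective
    rw [map_pow, hb, rt_pow hζ]
  have h3 : b ≠ 0 := by
    rintro rfl
    rw [zero_pow hp.out.ne_zero] at h2
    exact κ.ne_zero h2.symm
  exact ⟨Units.mk0 b h3, Units.ext h2⟩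

/-- the character of `c` -/
noncomputable def chi (c : Kˣ) : GK K →* SeparableClosure K where
  toFun g := zz ζ ^ (kp hζ c g).val
  map_one' := by rw [kp_one_right, ZMod.val_zero, pow_zero]
  map_mul' g h := by rw [kp_mul_right, pw_add (zz_prim hζ).pow_eq_one]

theorem chi_inj {c c' : Kˣ} (h : chi hζ c = chi hζ c') : ∃ β : Kˣ, β ^ p = c * c'⁻¹ := by
  apply pow_of_kp hζ
  intro g
  have h1 : zz ζ ^ (kp hζ c g).val = zz ζ ^ (kp hζ c' g).val := DFunLike.congr_fun h g
  have h2 := pw_inj (zz_prim hζ) h1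
  rw [kp_mul_left, kp_inv_left, h2, add_neg_cancel]

/-- linear independence of the residues -/
theorem indep [FF.IsFF k K] {w : FF.Place k K} {A : ValuationSubring (SeparableClosure K)}
    (hA : Ab w A) (h : ∀ a, ph k K a ∈ A) {ι : Type} (c : ι → Kˣ)
    (hc : ∀ i, IsAlgebraic k (c i : K)) (hinj : ∀ i j, chi hζ (c i) = chi hζ (c j) → i = j)
    (r : ι → K) (hr : ∀ i, w.Reg (r i))
    (hv : ∀ i, A.valuation (rt p (c i) - algebraMap K (SeparableClosure K) (r i)) < 1) :
    LinearIndependent k (fun i => w.red (r i)) := by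
  classical
  rw [linearIndependent_iff']
  intro s a hsum
  -- the sum in the valuation ring
  set X : w.O := ∑ i ∈ s, (⟨algebraMap k K (a i), w.reg_const (a i)⟩ : w.O) * ⟨r i, hr i⟩ with hX
  have hX0 : w.resHom X = 0 := by
    rw [hX, map_sum, ← hsum]
    refine Finset.sum_congr rfl fun i _ => ?_
    rw [map_mul, Algebra.smul_def, FF.Place.algebraMap_RF, w.red_of_reg (w.reg_const (a i)),
      w.red_of_reg (hr i)]
  have hXK : (X : K) = ∑ i ∈ s, algebraMap k K (a i) * r i := by
    have h1 := map_sum w.O.subtype (fun i => (⟨algebraMap k K (a i), w.reg_const (a i)⟩ : w.O) *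
      ⟨r i, hr i⟩) s
    exact h1
  have hXv : A.valuation (algebraMap K (SeparableClosure K) (X : K)) < 1 := by
    apply val_lt hA X.2
    rw [w.red_of_reg X.2]
    exact hX0
  have hφ : ∀ a, A.valuation (ph k K a) ≤ 1 := fun a => (A.valuation_le_one_iff _).2 (h a)
  set y := ∑ i ∈ s, ph k K (a i) * rt p (c i) with hy
  have hyv : A.valuation y < 1 := by
    have h1 : y = algebraMap K (SeparableClosure K) (X : K) +
        ∑ i ∈ s, ph k K (a i) * (rt p (c i) - algebraMap K (SeparableClosure K) (r i)) := by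
      rw [hXK, map_sum, ← Finset.sum_add_distrib, hy]
      refine Finset.sum_congr rfl fun i _ => ?_
      rw [map_mul, RingHom.comp_apply]
      ring
    rw [h1]
    refine A.valuation.map_add_lt hXv (A.valuation.map_sum_lt one_ne_zero fun i _ => ?_)
    rw [map_mul]
    exact lt_of_le_of_lt (mul_le_of_le_one_left' (hφ _)) (hv i)
  have hyi : (ph k K).IsIntegralElem y := by
    apply int_sum
    intro i
    apply int_of_pow (ph k K) hp.out.pos
    rw [rt_pow hζ]
    exact int_alg (hc i)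
  have hy0 : y = 0 := by
    by_contra hne
    rw [cst_val (ph k K) A h hyi hne] at hyv
    exact lt_irrefl _ hyv
  have hli := (linearIndependent_monoidHom (GK K) (SeparableClosure K)).comp
    (fun i => chi hζ (c i)) (fun i j hij => hinj i j hij)
  rw [linearIndependent_iff'] at hli
  have h2 := hli s (fun i => ph k K (a i) * rt p (c i)) (by
    funext g
    rw [Finset.sum_apply]
    have h3 := congrArg g hy0
    rw [map_zero, hy, map_sum] at h3
    rw [Pi.zero_apply, ← h3]
    refine Finset.sum_congr rfl fun i _ => ?_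
    rw [map_mul, kp_rt hζ, RingHom.comp_apply, AlgEquiv.commutes]
    show (algebraMap K (SeparableClosure K) (algebraMap k K (a i)) * rt p (c i)) *
      zz ζ ^ (kp hζ (c i) g).val = _
    ring)
  intro i hi
  have h4 := h2 i hi
  rcases mul_eq_zero.1 h4 with h5 | h5
  · exact (map_eq_zero_iff _ (ph k K).injective).1 h5
  · exact absurd h5 (rt_ne hζ (c i))

end final

end Cst

open Pool.Agent.NH7.GF Cst in
theorem s_cst : S_cst := by
  intro k K _ _ _ _ _ p _ ζ hζ w A hA
  classical
  have hp : Fact p.Prime := inferInstance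
  have h : ∀ a, ph k K a ∈ A := by
    intro a
    have h1 : algebraMap k K a ∈ w.O := w.reg_const a
    rw [← hA] at h1
    exact h1
  have hperf : PerfectField k := inferInstance
  let V : Set Kˣ := {c | (∀ v : FF.Place k K, v.ord (c : K) = 0) ∧ ∀ g ∈ Dec A, kp hζ c g = 0}
  let N : Subgroup Kˣ := (powMonoidHom p : Kˣ →* Kˣ).range
  let π : Kˣ →* Kˣ ⧸ N := QuotientGroup.mk' N
  have hπ : ∀ a b : Kˣ, (∃ β : Kˣ, β ^ p = a * b⁻¹) → π a = π b := by
    rintro a b ⟨β, hβ⟩
    have h1 : π (a * b⁻¹) = 1 := by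
      rw [← hβ]
      exact (QuotientGroup.eq_one_iff _).2 ⟨β, rfl⟩
    rw [map_mul, map_inv, mul_inv_eq_one] at h1
    exact h1
  have hfin : (π '' V).Finite := by
    have hch : ∀ q : (π '' V : Set (Kˣ ⧸ N)), ∃ c, c ∈ V ∧ π c = q.1 := fun q => q.2
    choose c hcV hcq using hch
    have hca : ∀ q, IsAlgebraic k ((c q : Kˣ) : K) := fun q => alg_of_ord (hcV q).1
    have hr := fun q => resid hζ A h (c q) (int_alg (hca q)) (hcV q).2
    choose r hrA hrv using hr
    have hrR : ∀ q, w.Reg (r q) := by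
      intro q
      have h1 : r q ∈ w.O := by
        rw [← hA]
        exact hrA q
      exact h1
    have hli := indep hζ hA h c hca (fun i j hij => by
      apply Subtype.ext
      rw [← hcq i, ← hcq j]
      exact hπ _ _ (chi_inj hζ hij)) r hrR hrv
    have hfd : FiniteDimensional k w.RF := inferInstance
    have h2 : Finite (π '' V : Set (Kˣ ⧸ N)) := hli.finite
    exact Set.toFinite _
  refine ⟨hfin.toFinset.image (fun q => Quotient.out q), fun c h1 h2 => ?_⟩
  refine ⟨Quotient.out (π c), Finset.mem_image.2 ⟨π c, ?_, rfl⟩, ?_⟩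
  · rw [Set.Finite.mem_toFinset]
    exact ⟨c, ⟨h1, h2⟩, rfl⟩
  · have h3 : π (Quotient.out (π c)) = π c := QuotientGroup.out_eq' _
    have h4 := QuotientGroup.eq.1 h3
    obtain ⟨β, hβ⟩ := h4
    refine ⟨β, ?_⟩
    have h5 : β ^ p = (Quotient.out (π c))⁻¹ * c := hβ
    rw [h5, mul_inv_cancel_left]

end Pool.Agent.NH7.GH
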