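import Pool.Agent.NH7.GH.Defs
import Pool.Agent.NH7.GF.DvdP

/-!
# Unramified Kummer characters (B1)
-/

set_option autoImplicit false
set_option linter.unusedSectionVars false

namespace Pool.Agent.NH7.GH

open Pool.Agent.NH7.GF Pool.Agent.NH7.GF.DvdP

theorem s_dvdH : S_dvdH := by
  intro k K _ _ _ p hp ζ hζ v A hA κ hκ
  by_contra hn
  have hb := rt_pow hζ κ
  set b := rt p κ with hbd
  -- an automorphism which moves the root
  obtain ⟨g0, hg0⟩ : ∃ g0 : GK K, kp hζ κ g0 ≠ 0 := by
    by_contra hcon
    push Not at hcon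
    have hfix : ∀ g : GK K, g b = b := fun g => (kp_zero_iff hζ hb).1 (hcon g)
    obtain ⟨s, hs⟩ := (InfiniteGalois.mem_range_algebraMap_iff_fixed b).2 hfix
    apply hn
    have h1 : s ^ p = (κ : K) := by
      apply (algebraMap K (SeparableClosure K)).injective
      rw [map_pow, hs, hb]
    exact ⟨v.ord s, by rw [← h1, v.ord_pow]⟩
  have hζA : zz ζ ∈ A := by
    have h1 := (zz_prim hζ).pow_eq_one
    rcases A.mem_or_inv_mem (zz ζ) with h | h
    · exact h
    · have h0 : zz ζ ≠ 0 := (zz_prim hζ).ne_zero hp.out.ne_zero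
      have h2 : zz ζ = (zz ζ)⁻¹ ^ (p - 1) := by
        have h3 : zz ζ ^ (p - 1) * zz ζ = 1 := by
          rw [← pow_succ, Nat.sub_add_cancel hp.out.one_le, h1]
        rw [inv_pow]
        exact eq_inv_of_mul_eq_one_right h3
      rw [h2]
      exact pow_mem h _
  set j := (kp hζ κ g0).val with hj
  have hg0b : g0 b = zz ζ ^ j * b := kp_spec hζ g0 hb
  have hyp : ∀ x : IntermediateField.adjoin K {b}, algebraMap _ (SeparableClosure K) x ∈ A →
      A.valuation ((g0 : SeparableClosure K →+* SeparableClosure K)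
        (algebraMap (IntermediateField.adjoin K {b}) (SeparableClosure K) x) -
          algebraMap (IntermediateField.adjoin K {b}) (SeparableClosure K) x) < 1 := by
    rintro ⟨x, hx⟩ hxA
    have hxA' : x ∈ A := hxA
    show A.valuation (g0 x - x) < 1
    obtain ⟨c, hc⟩ := expand hb hx
    rw [hc] at hxA'
    have hle := term_le hA hb hn c hxA'
    have e : g0 x - x = ∑ i ∈ Finset.range p,
        (algebraMap K (SeparableClosure K) (c i) * b ^ i) * ((zz ζ ^ j) ^ i - 1) := by
      rw [hc, map_sum, ← Finset.sum_sub_distrib]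
      refine Finset.sum_congr rfl fun i _ => ?_
      rw [map_mul, map_pow, hg0b, g0.commutes, mul_pow]
      ring
    rw [e]
    refine A.valuation.map_sum_lt one_ne_zero fun i hi => ?_
    by_cases hi0 : i = 0
    · rw [hi0, pow_zero, pow_zero, sub_self, mul_zero, map_zero]
      exact zero_lt_one
    rw [map_mul]
    have h1 : A.valuation ((zz ζ ^ j) ^ i - 1) ≤ 1 := by
      rw [A.valuation_le_one_iff]
      exact sub_mem (pow_mem (pow_mem hζA _) _) A.one_mem
    have h2 : A.valuation (algebraMap K (SeparableClosure K) (c i) * b ^ i) < 1 := by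
      by_cases hci : c i = 0
      · rw [hci, map_zero, zero_mul, map_zero]
        exact zero_lt_one
      · exact lt_of_le_of_ne (hle i hi)
          (term_ne_one hA hb hn hci (Nat.pos_of_ne_zero hi0) (Finset.mem_range.1 hi))
    calc _ ≤ A.valuation (algebraMap K (SeparableClosure K) (c i) * b ^ i) * 1 :=
          mul_le_mul_right h1 _
      _ < 1 := by rwa [mul_one]
  obtain ⟨h, hh1, hh2⟩ := LiftI.lift_inertia (A := A)
    (g0 := (g0 : SeparableClosure K →+* SeparableClosure K)) hyp
  set g : GK K := g0 * (h.restrictScalars K) with hg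
  have hgI : g ∈ Inr A := by
    rw [mem_Inr]
    exact ⟨hh1, hh2⟩
  have h1 := (kp_zero_iff hζ hb).1 (hκ g hgI)
  have h2 : h b = b := h.commutes ⟨b, IntermediateField.mem_adjoin_simple_self K b⟩
  apply hg0
  rw [kp_zero_iff hζ hb]
  have h3 : g b = g0 (h b) := rfl
  rw [h3, h2] at h1
  exact h1

end Pool.Agent.NH7.GH
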