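import Pool.Agent.NH7.GH.Defs

/-!
# Going up over function fields over Hilbertian fields: the theorem in terms of characters
-/

set_option autoImplicit false
set_option linter.unusedSectionVars false

namespace Pool.Agent.NH7.GH

open Pool.Agent.H525R3.FFp Matrix
open Pool.Agent.NH7.GU (Chr)
open Pool.Agent.NH7.BK (Pl Rp CocV Min S_int)
open Pool.Agent.NH7.GF

section pl

variable (k : Type) {K : Type} [Field k] [Field K] [Algebra k K]

/-- `A` contains `k` -/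
def Trv (A : ValuationSubring (SeparableClosure K)) : Prop :=
  ∀ c : k, algebraMap K (SeparableClosure K) (algebraMap k K c) ∈ A

theorem Trv_mv {A : ValuationSubring (SeparableClosure K)} (h : Trv k A) (g : GK K) :
    Trv k (mv g A) := by
  intro c
  rw [mem_mv, AlgEquiv.commutes]
  exact h c

/-- the inertia and decomposition groups -/
noncomputable def plH (S : Set (ValuationSubring K)) : Pl (GK K) where
  ι := {A : ValuationSubring (SeparableClosure K) // A ≠ ⊤ ∧ Trv k A ∧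
    A.comap (algebraMap K (SeparableClosure K)) ∉ S}
  I := fun A => Inr A.1
  DI := fun A => Dec A.1
  I_le := fun A => Inr_le A.1
  I_nor := fun A g hg x hx => Inr_norm hg hx
  I_conj := fun A g => ⟨⟨mv g A.1, mv_top A.2.1, Trv_mv k A.2.2.1 g, by
    rw [mv_comap]
    exact A.2.2.2⟩, fun x => Inr_mv g x⟩
  κ := {A : ValuationSubring (SeparableClosure K) // A ≠ ⊤ ∧ Trv k A ∧
    A.comap (algebraMap K (SeparableClosure K)) ∈ S}
  D := fun A => Dec A.1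
  D_conj := fun A g => ⟨⟨mv g A.1, mv_top A.2.1, Trv_mv k A.2.2.1 g, by
    rw [mv_comap]
    exact A.2.2.2⟩, fun x => Dec_mv g x⟩

end pl

section plc

variable {k K : Type} [Field k] [CharZero k] [Field K] [Algebra k K] [FF.IsFF k K]

theorem OH_ne_top (v : FF.Place k K) : v.O ≠ ⊤ := by
  intro h
  obtain ⟨t, ht, hv⟩ := v.surj
  have h1 : t⁻¹ ∈ v.O := by
    rw [h]
    trivial
  have h2 : v.Reg t⁻¹ := h1
  rw [v.reg_iff (inv_ne_zero ht), v.ord_inv, hv] at h2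
  omega

theorem OH_inj {v w : FF.Place k K} (h : v.O = w.O) : v = w := by
  refine FF.Place.eq_of_le v w fun f hf h1 => ?_
  have h2 : f ∈ v.O := (v.reg_iff hf).2 h1
  rw [h] at h2
  exact (w.reg_iff hf).1 h2

theorem AvH_ab (hext : S_ext) (v : FF.Place k K) : Ab v (Av v) := by
  have h : ∃ A : ValuationSubring (SeparableClosure K), Ab v A := hext k K v
  rw [Av, dif_pos h]
  exact Classical.choose_spec h

theorem comapH_ne (hplc : S_plcH) {A : ValuationSubring (SeparableClosure K)} (hA : A ≠ ⊤)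
    (ht : Trv k A) : ∃ v : FF.Place k K, Ab v A := by
  have h1 : A.comap (algebraMap K (SeparableClosure K)) ≠ ⊤ := fun h => hA ((hplc k K).2 A h)
  obtain ⟨v, hv⟩ := (hplc k K).1 _ h1 ht
  exact ⟨v, hv.symm⟩

theorem ab_trv {v : FF.Place k K} {A : ValuationSubring (SeparableClosure K)} (h : Ab v A) :
    Trv k A := by
  intro c
  have h1 : algebraMap k K c ∈ v.O := v.reg_const c
  rw [← (h : A.comap (algebraMap K (SeparableClosure K)) = v.O)] at h1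
  exact h1

theorem ab_ne {v : FF.Place k K} {A : ValuationSubring (SeparableClosure K)} (h : Ab v A) :
    A ≠ ⊤ := by
  rintro rfl
  refine OH_ne_top v ?_
  rw [← (h : (⊤ : ValuationSubring (SeparableClosure K)).comap
    (algebraMap K (SeparableClosure K)) = v.O)]
  ext x
  exact ⟨fun _ => trivial, fun _ => trivial⟩

theorem AvH_mv (hext : S_ext) (hcnj : S_cnj) {v : FF.Place k K}
    {A : ValuationSubring (SeparableClosure K)} (hA : Ab v A) : ∃ g : GK K, mv g A = Av v := by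
  obtain ⟨g, hg⟩ := hcnj k K v A (Av v) hA (AvH_ab hext v)
  refine ⟨g⁻¹, ?_⟩
  ext x
  rw [mem_mv, inv_inv]
  exact (hg x).symm

variable {p : ℕ} [hp : Fact p.Prime] {ζ : K}

/-- **The characters with trivial residual Selmer group** -/
theorem main_charH (hmn : S_mn) (hext : S_ext) (hcnj : S_cnj) (hplc : S_plcH)
    (hζ : IsPrimitiveRoot ζ p) (hk : Hilb k) (hpic : PicF k K p)
    {S B : Set (ValuationSubring K)} (hS : S.Finite) (hB : B.Finite)
    (hne : ∃ v : FF.Place k K, v.O ∈ S)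
    {χ₀ : GK K → ZMod p} (h0 : Hm χ₀) :
    ∃ χ : GK K → ZMod p, Hm χ ∧
      (∀ A : ValuationSubring (SeparableClosure K), A ≠ ⊤ → Trv k A →
        (A.comap (algebraMap K (SeparableClosure K)) ∈ B ∨
          A.comap (algebraMap K (SeparableClosure K)) ∈ S) → ∀ g ∈ Dec A, χ g = χ₀ g) ∧
      (∃ A : ValuationSubring (SeparableClosure K), A ≠ ⊤ ∧ Trv k A ∧
        A.comap (algebraMap K (SeparableClosure K)) ∉ B ∧
        A.comap (algebraMap K (SeparableClosure K)) ∉ S ∧ ∃ g ∈ Inr A, χ g ≠ 0) ∧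
      ∀ c : Chr p (GK K), c.χ = χ → Min (plH k S) c := by
  classical
  have hinj : Function.Injective (fun v : FF.Place k K => v.O) := fun v w hvw => OH_inj hvw
  have hfS : {v : FF.Place k K | v.O ∈ S}.Finite := hS.preimage hinj.injOn
  have hfB : {v : FF.Place k K | v.O ∈ B}.Finite := hB.preimage hinj.injOn
  obtain ⟨v0, hv0⟩ := hne
  obtain ⟨χ, hχ, h1, ⟨v, hvB, hvS, g, hg, hg0⟩, h2⟩ := hmn k K p ζ hζ hk hpic
    hfS.toFinset hfB.toFinset ⟨v0, hfS.mem_toFinset.2 hv0⟩ χ₀ h0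
  have hab : ∀ v : FF.Place k K, (Av v).comap (algebraMap K (SeparableClosure K)) = v.O :=
    AvH_ab hext
  have hloc : ∀ A : ValuationSubring (SeparableClosure K), A ≠ ⊤ → Trv k A →
        (A.comap (algebraMap K (SeparableClosure K)) ∈ B ∨
          A.comap (algebraMap K (SeparableClosure K)) ∈ S) → ∀ g ∈ Dec A, χ g = χ₀ g := by
    intro A hA hAt hAS g hg
    obtain ⟨v, hv⟩ := comapH_ne (k := k) hplc hA hAt
    obtain ⟨a, ha⟩ := AvH_mv hext hcnj hv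
    have hv' : A.comap (algebraMap K (SeparableClosure K)) = v.O := hv
    rw [hv'] at hAS
    have h3 : a * g * a⁻¹ ∈ Dec (Av v) := by
      rw [← ha]
      exact (Dec_mv a g).1 hg
    have h4 := h1 v (by
      rw [Set.Finite.mem_toFinset, Set.Finite.mem_toFinset]
      exact hAS) _ h3
    rwa [hm_conj hχ, hm_conj h0] at h4
  have hAv : ∀ v : FF.Place k K, Av v ≠ ⊤ ∧ Trv k (Av v) := fun v =>
    ⟨ab_ne (AvH_ab hext v), ab_trv (AvH_ab hext v)⟩
  refine ⟨χ, hχ, hloc, ⟨Av v, (hAv v).1, (hAv v).2, ?_, ?_, g, hg, hg0⟩, ?_⟩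
  · rw [hab]
    rw [Set.Finite.mem_toFinset] at hvB
    exact hvB
  · rw [hab]
    rw [Set.Finite.mem_toFinset] at hvS
    exact hvS
  · rintro c rfl x hx1 hx2 ha hb hc -
    refine h2 x ⟨hx1, hx2⟩ (fun v hv hI => ?_) (fun v hv hI => ?_) fun v hv => ?_
    · rw [Set.Finite.mem_toFinset] at hv
      exact ha ⟨Av v, (hAv v).1, (hAv v).2, by rw [hab]; exact hv⟩ hI
    · rw [Set.Finite.mem_toFinset] at hv
      exact hb ⟨Av v, (hAv v).1, (hAv v).2, by rw [hab]; exact hv⟩ hI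
    · rw [Set.Finite.mem_toFinset] at hv
      exact hc ⟨Av v, (hAv v).1, (hAv v).2, by rw [hab]; exact hv⟩

end plc

section rep

variable (k : Type) {K : Type} [Field k] [Field K] [Algebra k K] {p : ℕ} [hp : Fact p.Prime] {N : ℕ}

/-- the representations -/
structure RepH (S : Set (ValuationSubring K)) (ρ : GK K →* Matrix (Fin N) (Fin N) ℤ_[p]) :
    Prop where
  cont : Continuous ρ
  one : ∀ g i j, (p : ℤ_[p]) ∣ (ρ g - 1) i j
  unr : ∀ A : ValuationSubring (SeparableClosure K), A ≠ ⊤ → Trv k A →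
    A.comap (algebraMap K (SeparableClosure K)) ∉ S → ∀ g ∈ Inr A, ρ g = 1

/-- continuous cocycles on the subgroup `H` with values in `ℚ_p^N` and with the local conditions -/
structure SelH (S : Set (ValuationSubring K)) (ρ : GK K →* Matrix (Fin N) (Fin N) ℤ_[p])
    (H : Subgroup (GK K)) (c : H → Fin N → ℚ_[p]) : Prop where
  cont : Continuous c
  mul : ∀ σ τ, c (σ * τ) = c σ + mQ (ρ σ) (c τ)
  away : ∀ A : ValuationSubring (SeparableClosure K), A ≠ ⊤ → Trv k A →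
    A.comap (algebraMap K (SeparableClosure K)) ∉ S → ∃ x : Fin N → ℚ_[p],
      ∀ σ : H, (σ : GK K) ∈ Inr A → c σ = mQ (ρ σ) x - x
  inv : ∀ A : ValuationSubring (SeparableClosure K), A ≠ ⊤ → Trv k A →
    A.comap (algebraMap K (SeparableClosure K)) ∈ S → ∀ s ∈ Dec A, ∃ x : Fin N → ℚ_[p],
      ∀ σ τ : H, (σ : GK K) ∈ Dec A → (τ : GK K) = s⁻¹ * σ * s →
        mQ (ρ s) (c τ) - c σ = mQ (ρ σ) x - x

/-- the classes over the base field: unramified outside `S` -/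
structure BasH (S : Set (ValuationSubring K)) (ρ : GK K →* Matrix (Fin N) (Fin N) ℤ_[p])
    (c : (⊤ : Subgroup (GK K)) → Fin N → ℚ_[p]) : Prop where
  cont : Continuous c
  mul : ∀ σ τ, c (σ * τ) = c σ + mQ (ρ σ) (c τ)
  away : ∀ A : ValuationSubring (SeparableClosure K), A ≠ ⊤ → Trv k A →
    A.comap (algebraMap K (SeparableClosure K)) ∉ S →
      ∀ σ : (⊤ : Subgroup (GK K)), (σ : GK K) ∈ Inr A → c σ = 0

variable {k}

/-- the representation as abstract data -/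
noncomputable def repDH {S : Set (ValuationSubring K)}
    {ρ : GK K →* Matrix (Fin N) (Fin N) ℤ_[p]} (h : RepH k S ρ) : Rp p (plH k S) N where
  ρ := ρ
  cont := h.cont
  one := h.one
  triv := fun A g hg => h.unr A.1 A.2.1 A.2.2.1 A.2.2.2 g hg

theorem mQ_subH (M : Matrix (Fin N) (Fin N) ℤ_[p]) (x y : Fin N → ℚ_[p]) :
    mQ M (x - y) = mQ M x - mQ M y := by
  unfold mQ
  rw [Matrix.mulVec_sub]

/-- from `ℚ_p`-valued to `ℤ_p`-valued cocycles -/
theorem selD_of_selH (hint : S_int) {S : Set (ValuationSubring K)}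
    {ρ : GK K →* Matrix (Fin N) (Fin N) ℤ_[p]} (hρ : RepH k S ρ) {H : Subgroup (GK K)}
    (hn : H.Normal) (hH : IsClosed (H : Set (GK K))) {c : H → Fin N → ℚ_[p]}
    (h : SelH k S ρ H c) :
    ∃ (l : ℕ) (f : GK K → Fin N → ℤ_[p]), SelD (repDH hρ) H f ∧
      ∀ σ : H, cQ (f σ) = (p : ℚ_[p]) ^ l • c σ := by
  have : CompactSpace H := isCompact_iff_compactSpace.1 hH.isCompact
  obtain ⟨l, f, hf, hfc⟩ := hint p N H c h.cont
  have hfc' : ∀ σ, cQ (f σ) = (p : ℚ_[p]) ^ l • c σ := fun σ => by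
    funext j
    exact hfc σ j
  refine ⟨l, ext0 f, ⟨⟨?_, fun g hg t ht => ?_⟩, fun i g hg hgH => ?_, fun i s hs => ?_⟩,
    fun σ => by
      rw [ext0_of f σ.2]
      exact hfc' σ⟩
  · have : (fun x : H => ext0 f x) = f := funext fun x => ext0_of f x.2
    rw [this]
    exact hf
  · rw [ext0_of f hg, ext0_of f ht, ext0_of f (H.mul_mem hg ht)]
    apply cQ_inj
    rw [cQ_add]
    have e1 : cQ ((repDH hρ).ρ g *ᵥ f ⟨t, ht⟩) = mQ (ρ g) (cQ (f ⟨t, ht⟩)) := cQ_mul _ _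
    have e2 : (⟨g * t, H.mul_mem hg ht⟩ : H) = ⟨g, hg⟩ * ⟨t, ht⟩ := rfl
    rw [e1, e2, hfc', hfc', hfc', h.mul, mQ_smul, smul_add]
  · obtain ⟨x, hx⟩ := h.away i.1 i.2.1 i.2.2.1 i.2.2.2
    rw [ext0_of f hgH]
    apply cQ_inj
    have e1 : ρ g = 1 := hρ.unr i.1 i.2.1 i.2.2.1 i.2.2.2 g hg
    have e2 := hx ⟨g, hgH⟩ hg
    rw [hfc', e2]
    rw [show ρ ((⟨g, hgH⟩ : H) : GK K) = 1 from e1, mQ_one, sub_self, smul_zero, cQ_zero]
  · obtain ⟨x, hx⟩ := h.inv i.1 i.2.1 i.2.2.1 i.2.2.2 s hs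
    obtain ⟨m, hm⟩ := exists_int_vec x
    obtain ⟨z, hz⟩ := hm (m + l) (Nat.le_add_right _ _)
    refine ⟨m, z, fun g hg hgH => ?_⟩
    have hgs : s⁻¹ * g * s ∈ H := by
      have := hn.conj_mem g hgH s⁻¹
      rwa [inv_inv] at this
    rw [ext0_of f hgH, ext0_of f hgs]
    apply cQ_inj
    have e1 : cQ ((repDH hρ).ρ g *ᵥ z) = mQ (ρ g) (cQ z) := cQ_mul _ _
    have e3 : cQ ((repDH hρ).ρ s *ᵥ f ⟨s⁻¹ * g * s, hgs⟩) =
      mQ (ρ s) (cQ (f ⟨s⁻¹ * g * s, hgs⟩)) := cQ_mul _ _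
    have e2 := hx ⟨g, hgH⟩ ⟨s⁻¹ * g * s, hgs⟩ hg rfl
    rw [cQ_smul, cQ_sub, cQ_sub, e1, e3, hz, hfc', hfc', mQ_smul, mQ_smul, ← smul_sub, ← smul_sub,
      e2, smul_smul, ← pow_add]

end rep

section main

variable {k K : Type} [Field k] [CharZero k] [Field K] [Algebra k K] [FF.IsFF k K] {p : ℕ}
  [hp : Fact p.Prime] {ζ : K}

/-- **The theorem in terms of characters** -/
theorem main_selH (hmn : S_mn) (hext : S_ext) (hcnj : S_cnj) (hplc : S_plcH)
    (hcmp : S_cmpD) (hint : S_int) (hp2 : p ≠ 2)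
    (hζ : IsPrimitiveRoot ζ p) (hk : Hilb k) (hpic : PicF k K p)
    {S B : Set (ValuationSubring K)} (hS : S.Finite) (hB : B.Finite)
    (hne : ∃ v : FF.Place k K, v.O ∈ S)
    {χ₀ : GK K → ZMod p} (h0 : Hm χ₀)
    (hram : ∀ A : ValuationSubring (SeparableClosure K), A ≠ ⊤ → Trv k A →
      A.comap (algebraMap K (SeparableClosure K)) ∈ S → ∃ g ∈ Inr A, χ₀ g ≠ 0) :
    ∃ (χ : GK K → ZMod p) (hχ : Hm χ), (∃ σ, χ σ = 1) ∧
      (∀ A : ValuationSubring (SeparableClosure K), A ≠ ⊤ → Trv k A →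
        A.comap (algebraMap K (SeparableClosure K)) ∈ B → ∀ g ∈ Dec A, χ g = χ₀ g) ∧
      (∀ A : ValuationSubring (SeparableClosure K), A ≠ ⊤ → Trv k A →
        A.comap (algebraMap K (SeparableClosure K)) ∈ S → ∃ g ∈ Inr A, χ g ≠ 0) ∧
      (∃ A : ValuationSubring (SeparableClosure K), A ≠ ⊤ ∧ Trv k A ∧
        A.comap (algebraMap K (SeparableClosure K)) ∉ B ∧ ∃ g ∈ Inr A, χ g ≠ 0) ∧
      ∀ (N : ℕ) (ρ : GK K →* Matrix (Fin N) (Fin N) ℤ_[p]), RepH k S ρ →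
        ∀ c : kerX hχ → Fin N → ℚ_[p], SelH k S ρ (kerX hχ) c →
          ∃ c' : (⊤ : Subgroup (GK K)) → Fin N → ℚ_[p], BasH k S ρ c' ∧ ∃ x : Fin N → ℚ_[p],
            ∀ (σ : kerX hχ) (τ : (⊤ : Subgroup (GK K))), (τ : GK K) = σ →
              c σ = c' τ + (mQ (ρ σ) x - x) := by
  classical
  obtain ⟨χ, hχ, hloc, ⟨A, hA, hAt, hAB, hAS, g, hg, hg0⟩, hsel⟩ :=
    main_charH hmn hext hcnj hplc hζ hk hpic hS hB hne h0
  obtain ⟨σ, hσ⟩ := hm_ex hχ hg0
  have hramS : ∀ A : ValuationSubring (SeparableClosure K), A ≠ ⊤ → Trv k A →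
        A.comap (algebraMap K (SeparableClosure K)) ∈ S → ∃ g ∈ Inr A, χ g ≠ 0 := by
    intro A hA hAt hAS
    obtain ⟨g, hg, hg0⟩ := hram A hA hAt hAS
    exact ⟨g, hg, by rwa [hloc A hA hAt (Or.inr hAS) g (Inr_le A hg)]⟩
  refine ⟨χ, hχ, ⟨σ, hσ⟩, fun A hA hAt hAB g hg => hloc A hA hAt (Or.inl hAB) g hg, hramS,
    ⟨A, hA, hAt, hAB, g, hg, hg0⟩, fun N ρ hρ c hc => ?_⟩
  let ch : Chr p (GK K) := ⟨χ, hχ.c, hχ.m, σ, hσ⟩
  have hmin : Min (plH k S) ch := hsel ch rfl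
  have hkk : ch.ker = kerX hχ := Subgroup.ext fun g => Iff.rfl
  have hnon' : ∀ i : (plH k S).κ, ∃ g ∈ (plH k S).D i, ch.χ g ≠ 0 := fun i => by
    obtain ⟨g, hg, hg0⟩ := hramS i.1 i.2.1 i.2.2.1 i.2.2.2
    exact ⟨g, Inr_le _ hg, hg0⟩
  obtain ⟨l, f, hf, hfc⟩ := selD_of_selH hint hρ (kerX_normal hχ) (kerX_closed hχ) hc
  obtain ⟨F, hF, hFI, m, z, hz⟩ := hcmp p (GK K) (plH k S) ch hp2 hnon' hmin N (repDH hρ) f
    (by rw [hkk]; exact hf)
  refine ⟨fun σ => ((p : ℚ_[p]) ^ (m + l))⁻¹ • cQ (F σ), ⟨?_, fun σ τ => ?_,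
    fun A hA hAt hAS σ hσ => ?_⟩, ((p : ℚ_[p]) ^ (m + l))⁻¹ • cQ z, fun σ τ hστ => ?_⟩
  · exact (cQ_cont.comp hF.cont).const_smul (((p : ℚ_[p]) ^ (m + l))⁻¹)
  · have e := hF.mul _ σ.2 _ τ.2
    have e1 : cQ ((repDH hρ).ρ σ *ᵥ F τ) = mQ (ρ σ) (cQ (F τ)) := cQ_mul _ _
    rw [Subgroup.coe_mul, e, cQ_add, e1, mQ_smul, smul_add]
  · have e := hFI ⟨A, hA, hAt, hAS⟩ σ hσ
    rw [e, cQ_zero, smul_zero]
  · have e := congrArg cQ (hz σ (by rw [hkk]; exact σ.2))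
    have e1 : cQ ((repDH hρ).ρ σ *ᵥ z) = mQ (ρ σ) (cQ z) := cQ_mul _ _
    rw [cQ_smul, cQ_add, cQ_sub, e1, hfc, smul_smul, ← pow_add] at e
    beta_reduce
    rw [hστ, mQ_smul, ← smul_sub, ← smul_add, ← e, smul_smul,
      inv_mul_cancel₀ (pow_ne_zero _ pQ_ne), one_smul]

end main

/-! ### The modules -/

section mod

variable {K : Type} [Field K] {p : ℕ} [hp : Fact p.Prime] {N : ℕ}

/-- the decomposition groups -/
def DsH (k : Type) (K : Type) [Field k] [Field K] [Algebra k K] : Set (Subgroup (GK K)) :=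
  {D | ∃ A : ValuationSubring (SeparableClosure K), A ≠ ⊤ ∧ Trv k A ∧ D = Dec A}

/-- the main theorem for classes with locally trivial images in `M` -/
theorem dscT_of_sel {k : Type} [Field k] [Algebra k K] (hinv : S_inv) (hunr : S_unr)
    {S : Set (ValuationSubring K)}
    {χ : GK K → ZMod p} (hχ : Hm χ) {ρ : GK K →* Matrix (Fin N) (Fin N) ℤ_[p]}
    (hρ : RepH k S ρ)
    (hmain : ∀ c : kerX hχ → Fin N → ℚ_[p], SelH k S ρ (kerX hχ) c →
          ∃ c' : (⊤ : Subgroup (GK K)) → Fin N → ℚ_[p], BasH k S ρ c' ∧ ∃ x : Fin N → ℚ_[p],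
            ∀ (σ : kerX hχ) (τ : (⊤ : Subgroup (GK K))), (τ : GK K) = σ →
              c σ = c' τ + (mQ (ρ σ) x - x))
    {M : Type} [AddCommGroup M] [DistribMulAction (GK K) M] {φ : (Fin N → ℚ_[p]) →+ M}
    (hM : Mo ρ M φ)
    (hgood : ∀ A : ValuationSubring (SeparableClosure K), A ≠ ⊤ → Trv k A →
      A.comap (algebraMap K (SeparableClosure K)) ∉ S →
        ∀ P ∈ fx M (Inr A ⊓ kerX hχ), ∃ Q ∈ fx M (Inr A ⊓ kerX hχ), p • Q = P)
    (hbad : ∀ A : ValuationSubring (SeparableClosure K), A ≠ ⊤ → Trv k A →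
      A.comap (algebraMap K (SeparableClosure K)) ∈ S → Bd M p (Dec A) (kerX hχ)) :
    DscT M (DsH k K) ρ (kerX hχ) φ := by
  intro c hc hmul hloc
  have h1 : SelH k S ρ (kerX hχ) fun σ => cQ (c σ) := by
    refine ⟨cQ_cont.comp hc, fun σ τ => ?_, fun A hA hAt hAS => ?_, fun A hA hAt hAS s hs => ?_⟩
    · rw [hmul, cQ_add, cQ_mul]
    · refine ⟨0, fun σ hσ => ?_⟩
      have h2 := hunr p (GK K) N ρ M φ hM (Inr A ⊓ kerX hχ)
        (fun g hg => hρ.unr A hA hAt hAS g hg.1) (hgood A hA hAt hAS) (ext0 c) (fun n => by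
          obtain ⟨P, hP⟩ := hloc (Dec A) ⟨A, hA, hAt, rfl⟩ n
          refine ⟨P, fun g hg => ?_⟩
          rw [ext0_of c hg.2]
          exact hP ⟨g, hg.2⟩ (Inr_le A hg.1)) σ ⟨hσ, σ.2⟩
      rw [ext0_of c σ.2] at h2
      have h3 : c σ = 0 := h2
      rw [h3, cQ_zero, mQ_zero, sub_zero]
    · have hn := kerX_normal hχ
      exact hinv p (GK K) N ρ M φ hM (Dec A) (kerX hχ) (hbad A hA hAt hAS) c
        (fun n => hloc (Dec A) ⟨A, hA, hAt, rfl⟩ n) s hs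
  obtain ⟨c', hc', x, hx⟩ := hmain _ h1
  exact ⟨c', hc'.cont, hc'.mul, x, hx⟩

end mod

end Pool.Agent.NH7.GH
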