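import Pool.Agent.NH7.GH.Defs

/-!
# Hilbert's irreducibility theorem: places which do not split over the line
-/

set_option autoImplicit false
set_option linter.unusedSectionVars false

namespace Pool.Agent.NH7.GH

open Polynomial Module IntermediateField

namespace HilA

variable {k E : Type} [Field k] [CharZero k] [Field E] [Algebra k E]

open scoped algebraAdjoinAdjoin in
/-- an integral equation of a primitive element -/
theorem exists_poly [FF.IsFF k E] {h : E} (hh : Transcendental k h) :
    ∃ (G : k[X][X]) (θ : E), G.Monic ∧ G.natDegree = finrank k⟮h⟯ E ∧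
      Irreducible (G.map (algebraMap k[X] (RatFunc k))) ∧
      G.eval₂ (eval₂RingHom (algebraMap k E) h) θ = 0 := by
  let A := Algebra.adjoin k {h}
  let e := Polynomial.algEquivOfTranscendental k h hh
  have hpid : IsPrincipalIdealRing A :=
    IsPrincipalIdealRing.of_surjective e.toRingEquiv e.surjective
  have hfin := FF.IsFF.finite hh
  have hchar : CharZero k⟮h⟯ := charZero_of_injective_algebraMap (algebraMap k k⟮h⟯).injective
  have hic : IsIntegrallyClosed A := inferInstance
  obtain ⟨θ₀, hθ₀⟩ := Field.exists_primitive_element k⟮h⟯ E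
  obtain ⟨a, ha0, ha⟩ := exists_integral_multiples A k⟮h⟯ ({θ₀} : Finset E)
  have hθ : IsIntegral A (a • θ₀) := ha θ₀ (Finset.mem_singleton_self _)
  have haE : (algebraMap A E a) ≠ 0 := by
    intro h0
    apply ha0
    exact Subtype.ext h0
  have hprim : k⟮h⟯⟮a • θ₀⟯ = ⊤ := by
    rw [← top_le_iff, ← hθ₀, adjoin_simple_le_iff]
    have h1 : θ₀ = (algebraMap k⟮h⟯ E (algebraMap A k⟮h⟯ a))⁻¹ * (a • θ₀) := by
      rw [← IsScalarTower.algebraMap_apply, Algebra.smul_def, inv_mul_cancel_left₀ haE]
    have h2 : (algebraMap k⟮h⟯ E (algebraMap A k⟮h⟯ a))⁻¹ * (a • θ₀) ∈ k⟮h⟯⟮a • θ₀⟯ :=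
      mul_mem (inv_mem (IntermediateField.algebraMap_mem _ _)) (mem_adjoin_simple_self _ _)
    rwa [← h1] at h2
  have hdeg := (Field.primitive_element_iff_minpoly_natDegree_eq k⟮h⟯ (a • θ₀)).1 hprim
  have hmp := minpoly.isIntegrallyClosed_eq_field_fractions' k⟮h⟯ hθ
  have hmon := minpoly.monic hθ
  let φ : A →+* k[X] := (e.symm : A →+* k[X])
  have hG1 : ((minpoly A (a • θ₀)).map φ).Monic := hmon.map φ
  refine ⟨(minpoly A (a • θ₀)).map φ, a • θ₀, hG1, ?_, ?_, ?_⟩
  · rw [hmon.natDegree_map, ← hdeg, hmp, hmon.natDegree_map]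
  · refine (hG1.irreducible_iff_irreducible_map_fraction_map (K := RatFunc k)).1 ?_
    have h1 := minpoly.irreducible hθ
    have h2 := (MulEquiv.irreducible_iff (Polynomial.mapEquiv e.symm.toRingEquiv)
      (x := minpoly A (a • θ₀))).2 h1
    exact h2
  · rw [eval₂_map]
    have h1 : (eval₂RingHom (algebraMap k E) h).comp φ = algebraMap A E := by
      refine RingHom.ext fun x => ?_
      have h2 : ((e (e.symm x) : A) : E) = aeval h (e.symm x) := by
        exact (Polynomial.aeval_algHom_apply A.val
          ⟨h, Algebra.self_mem_adjoin_singleton k h⟩ (e.symm x)).symm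
      rw [e.apply_symm_apply] at h2
      exact h2.symm
    rw [h1]
    exact minpoly.aeval A (a • θ₀)

/-- the residue degree at the zeros of `h - t` -/
theorem deg_ge [FF.IsFF k E] {h θ : E} {G : k[X][X]} (hG : G.Monic)
    (hθ : G.eval₂ (eval₂RingHom (algebraMap k E) h) θ = 0) {t : k}
    (ht : Irreducible (G.map (evalRingHom t))) (w : FF.Place k E)
    (hw : 0 < w.ord (h - algebraMap k E t)) : G.natDegree ≤ w.deg := by
  have hd : w.Reg (h - algebraMap k E t) := Or.inr hw.le
  have hh : w.Reg h := by
    have h1 := w.reg_add hd (w.reg_const t)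
    rwa [sub_add_cancel] at h1
  let c : k →+* w.O := (algebraMap k E).codRestrict w.O w.reg_const
  let hO : w.O := ⟨h, hh⟩
  -- `θ` is regular
  have hr : ∀ g : k[X], w.Reg (eval₂RingHom (algebraMap k E) h g) := by
    intro g
    have h1 : (algebraMap w.O E) (eval₂RingHom c hO g) = eval₂RingHom (algebraMap k E) h g := by
      rw [coe_eval₂RingHom, coe_eval₂RingHom, hom_eval₂]
      rfl
    rw [← h1]
    exact (eval₂RingHom c hO g).2
  have hθr : w.Reg θ := by
    let _ : Algebra k[X] E := (eval₂RingHom (algebraMap k E) h).toAlgebra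
    exact w.reg_of_isIntegral (A := k[X]) hr ⟨G, hG, hθ⟩
  let θO : w.O := ⟨θ, hθr⟩
  have h1 : G.eval₂ (eval₂RingHom c hO) θO = 0 := by
    apply Subtype.val_injective
    change (algebraMap w.O E) _ = (algebraMap w.O E) 0
    rw [hom_eval₂, map_zero]
    have h2 : (algebraMap w.O E).comp (eval₂RingHom c hO) = eval₂RingHom (algebraMap k E) h := by
      refine RingHom.ext fun g => ?_
      rw [RingHom.comp_apply, coe_eval₂RingHom, coe_eval₂RingHom, hom_eval₂]
      rfl
    rw [h2]
    exact hθ
  have h3 := congrArg w.resHom h1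
  rw [hom_eval₂, map_zero] at h3
  have hc : w.resHom.comp c = algebraMap k w.RF := by
    refine RingHom.ext fun x => ?_
    rw [w.algebraMap_RF, w.red_of_reg (w.reg_const x)]
    rfl
  have hh2 : w.resHom hO = algebraMap k w.RF t := by
    have h4 : w.red (h - algebraMap k E t) = 0 := (w.red_eq_zero_iff hd).2 (Or.inr hw)
    rw [w.red_sub hh (w.reg_const t), sub_eq_zero] at h4
    rw [w.algebraMap_RF, ← h4, w.red_of_reg hh]
  have h5 : w.resHom.comp (eval₂RingHom c hO) = (algebraMap k w.RF).comp (evalRingHom t) := by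
    refine RingHom.ext fun g => ?_
    rw [RingHom.comp_apply, coe_eval₂RingHom, hom_eval₂, hc, hh2, RingHom.comp_apply,
      coe_evalRingHom, eval₂_at_apply]
  rw [h5, ← eval₂_map] at h3
  have h6 : aeval (w.resHom θO) (G.map (evalRingHom t)) = 0 := h3
  have h7 := minpoly.eq_of_irreducible_of_monic ht h6 (hG.map _)
  have h8 : (minpoly k (w.resHom θO)).natDegree ≤ finrank k w.RF := minpoly.natDegree_le _
  rw [← h7, hG.natDegree_map] at h8
  exact h8

theorem adjoin_sub {h : E} (t : k) : k⟮h - algebraMap k E t⟯ = k⟮h⟯ := by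
  apply le_antisymm
  · rw [adjoin_simple_le_iff]
    exact sub_mem (mem_adjoin_simple_self k h) (IntermediateField.algebraMap_mem _ t)
  · rw [adjoin_simple_le_iff]
    have h1 := add_mem (mem_adjoin_simple_self k (h - algebraMap k E t))
      (IntermediateField.algebraMap_mem _ t)
    rwa [sub_add_cancel] at h1

theorem transc_sub {h : E} (hh : Transcendental k h) (t : k) :
    Transcendental k (h - algebraMap k E t) := by
  intro h1
  apply hh
  have h2 := h1.add (isAlgebraic_algebraMap t)
  rwa [sub_add_cancel] at h2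

end HilA

open HilA in
/-- Hilbert's irreducibility theorem. -/
theorem s_hil : S_hil := by
  classical
  intro k E _ _ _ _ _ hk h hh
  obtain ⟨G, θ, hG, hdeg, hirr, hθ⟩ := exists_poly (k := k) hh
  refine (hk G hirr).mono fun t ht => ?_
  have ht' : Irreducible (G.map (evalRingHom t)) := ht
  obtain ⟨S, hS1, hS2, hS3⟩ := FF.zeros (transc_sub hh t)
  rw [adjoin_sub, ← hdeg] at hS3
  have hfin := FF.IsFF.finite hh
  have hn : 0 < G.natDegree := by
    rw [hdeg]
    exact finrank_pos
  have hge : ∀ w ∈ S, G.natDegree ≤ (w.ord (h - algebraMap k E t)).toNat * w.deg := by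
    intro w hw
    have h1 := (hS1 w).1 hw
    have h2 := deg_ge hG hθ ht' w h1
    have h3 : 1 ≤ (w.ord (h - algebraMap k E t)).toNat := by omega
    calc G.natDegree = 1 * G.natDegree := (one_mul _).symm
      _ ≤ _ := Nat.mul_le_mul h3 h2
  have hne : S.Nonempty := by
    rw [Finset.nonempty_iff_ne_empty]
    rintro rfl
    rw [Finset.sum_empty] at hS3
    omega
  obtain ⟨w, hw⟩ := hne
  have hle : (w.ord (h - algebraMap k E t)).toNat * w.deg ≤ G.natDegree := by
    rw [← hS3]
    exact Finset.single_le_sum (f := fun w => (w.ord (h - algebraMap k E t)).toNat * w.deg)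
      (fun _ _ => Nat.zero_le _) hw
  refine ⟨w, ?_, fun w' hw' => ?_⟩
  · have h1 := (hS1 w).1 hw
    have h2 := deg_ge hG hθ ht' w h1
    by_contra hcon
    have h3 : 2 ≤ (w.ord (h - algebraMap k E t)).toNat := by omega
    have h4 := Nat.mul_le_mul h3 h2
    omega
  · by_contra hcon
    have hw'S := (hS1 w').2 hw'
    have h1 : ∑ x ∈ ({w, w'} : Finset (FF.Place k E)),
        (x.ord (h - algebraMap k E t)).toNat * x.deg ≤ G.natDegree := by
      rw [← hS3]
      refine Finset.sum_le_sum_of_subset ?_
      intro x hx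
      rw [Finset.mem_insert, Finset.mem_singleton] at hx
      rcases hx with rfl | rfl
      · exact hw
      · exact hw'S
    rw [Finset.sum_pair (Ne.symm hcon)] at h1
    have h2 := hge w hw
    have h3 := hge w' hw'S
    omega

end Pool.Agent.NH7.GH
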