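import Pool.Agent.NH7.GH.Defs
import Pool.Agent.NH7.GF.ExtP

/-!
# Inert places in a finite extension
-/

set_option autoImplicit false
set_option linter.unusedSectionVars false

namespace Pool.Agent.NH7.GH

open Pool.Agent.H525R3.FFp
open Pool.Agent.NH7.GF FF

namespace HilvP

theorem isFF_fin' {k K L : Type} [Field k] [Field K] [Algebra k K] [Field L] [Algebra k L]
    [Algebra K L] [IsScalarTower k K L] [hFF : IsFF k K] [FiniteDimensional K L] : IsFF k L := by
  have := hFF.ess
  refine ⟨Algebra.EssFiniteType.comp k K _, ?_⟩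
  have h1 := _root_.trdeg_add_eq (R := k) (S := K) (A := L)
  rw [hFF.trdeg, _root_.trdeg_eq_zero (R := K) (A := L), add_zero] at h1
  exact h1.symm

/-- a valuation ring of a field which contains `L`, above `v`, is above the only zero of `x` -/
theorem above {k K L M : Type} [Field k] [Field K] [Field L] [Field M] [Algebra k K] [Algebra k L]
    [Algebra K L] [IsScalarTower k K L] [Algebra K M] [Algebra L M] [IsScalarTower K L M]
    (h2 : ∀ O : ValuationSubring L, O ≠ ⊤ → (∀ c : k, algebraMap k L c ∈ O) →
      ∃ v : Place k L, v.O = O) (w : Place k L) (x : K)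
    (hwu : ∀ w' : Place k L, 0 < w'.ord (algebraMap K L x) → w' = w) (v : Place k K)
    (hv : 0 < v.ord x) (A : ValuationSubring M) (hA : A.comap (algebraMap K M) = v.O) :
    A.comap (algebraMap L M) = w.O := by
  have hx0 : x ≠ 0 := by
    rintro rfl
    rw [v.ord_zero] at hv
    exact lt_irrefl _ hv
  have hmem : ∀ y : K, algebraMap K L y ∈ A.comap (algebraMap L M) ↔ v.Reg y := by
    intro y
    rw [ValuationSubring.mem_comap, ← IsScalarTower.algebraMap_apply K L M,
      ← ValuationSubring.mem_comap, hA]
    exact v.mem_O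
  have hxi : algebraMap K L x⁻¹ ∉ A.comap (algebraMap L M) := by
    rw [hmem, v.reg_iff (inv_ne_zero hx0), v.ord_inv]
    omega
  obtain ⟨w', hw'⟩ := h2 (A.comap (algebraMap L M)) (by
    intro htop
    apply hxi
    rw [htop]
    exact ValuationSubring.mem_top _) (fun c => by
    rw [IsScalarTower.algebraMap_apply k K L, hmem]
    exact v.reg_const c)
  rw [← hw'] at hxi
  have h3 : ¬ w'.Reg (algebraMap K L x⁻¹) := hxi
  have hLx : algebraMap K L x⁻¹ ≠ 0 := (map_ne_zero _).2 (inv_ne_zero hx0)
  rw [w'.reg_iff hLx, map_inv₀, w'.ord_inv] at h3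
  rw [← hw', hwu w' (by omega)]

end HilvP

open HilvP in
theorem s_hilv (h1 : S_hil) (h2 : S_plcH) : S_hilv := by
  intro k K _ _ _ _ _ hk E _ h hh
  let iA : Algebra k E := ((algebraMap K E).comp (algebraMap k K)).toAlgebra
  have iT : IsScalarTower k K E := IsScalarTower.of_algebraMap_eq fun _ => rfl
  have hFF : IsFF k E := isFF_fin' (K := K)
  have htr : Transcendental k (algebraMap K E h) :=
    (transcendental_algebraMap_iff (algebraMap K E).injective).2 hh
  obtain ⟨t, w, hw1, hwu⟩ := (h1 k E hk (algebraMap K E h) htr).nonempty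
  have hx : algebraMap K E (h - algebraMap k K t) = algebraMap K E h - algebraMap k E t := by
    rw [map_sub]
    rfl
  rw [← hx] at hw1
  have hwu' : ∀ w' : Place k E, 0 < w'.ord (algebraMap K E (h - algebraMap k K t)) → w' = w := by
    intro w' h3
    rw [hx] at h3
    exact hwu w' h3
  obtain ⟨e, v, hov⟩ := Pool.Agent.W343.BSD.exists_below (K := K) w
  have hv1 : v.ord (h - algebraMap k K t) = 1 := by
    have h3 := hov.2 (h - algebraMap k K t)
    rw [hw1] at h3
    have he : (0 : ℤ) < e := by exact_mod_cast hov.1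
    have h4 : 0 < v.ord (h - algebraMap k K t) := by
      by_contra hcon
      push Not at hcon
      nlinarith
    nlinarith
  have hcl : ∀ v' : Place k K, 0 < v'.ord (h - algebraMap k K t) →
      ∀ A : ValuationSubring (SeparableClosure K), Ab v' A →
        A.comap (algebraMap E (SeparableClosure K)) = w.O := fun v' hv' A hA =>
    above (fun O hO hc => (h2 k E).1 O hO hc) w _ hwu' v' hv' A hA
  have hO : ∀ v' : Place k K, 0 < v'.ord (h - algebraMap k K t) →
      v'.O = w.O.comap (algebraMap K E) := by
    intro v' hv'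
    obtain ⟨A, hA⟩ := s_ext k K v'
    rw [← hcl v' hv' A hA, ← hA]
    rfl
  refine ⟨t, v, hv1, fun v' hv' => ?_, fun A A' hA hA' => ?_⟩
  · have hvv : v'.O = v.O := (hO v' hv').trans (hO v (by omega)).symm
    refine FF.Place.eq_of_le v' v fun f hf h3 => ?_
    have h4 : f ∈ v'.O := (v'.reg_iff hf).2 h3
    rw [hvv] at h4
    exact (v.reg_iff hf).1 h4
  · rw [hcl v (by omega) A hA, hcl v (by omega) A' hA']

end Pool.Agent.NH7.GH
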