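import Pool.Agent.NH7.GH.Defs
import Pool.Agent.NH7.GF.LclP

/-!
# C1. The bad places
-/

set_option autoImplicit false

namespace Pool.Agent.NH7.GH

open Pool.Agent.NH7.GF

theorem s_inv (hcpt : S_cpt) : S_inv := by
  intro p _ G _ _ N ρ M _ _ φ hM D H hHn hBd c hc s hs
  obtain ⟨a, ha⟩ := hBd
  -- conjugation
  have hconj : ∀ σ : H, s⁻¹ * (σ : G) * s ∈ H := by
    intro σ
    have := hHn.conj_mem σ σ.2 s⁻¹
    rwa [inv_inv] at this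
  have hconjD : ∀ σ : H, (σ : G) ∈ D → s⁻¹ * (σ : G) * s ∈ D := fun σ hσ =>
    D.mul_mem (D.mul_mem (D.inv_mem hs) hσ) hs
  have key : ∀ n : ℕ, ∃ u : Fin N → ℚ_[p], ∀ g : {σ : H // (σ : G) ∈ D}, ∃ z : Fin N → ℤ_[p],
      cQ ((p : ℤ_[p]) ^ a • ((ρ s).mulVec (c ⟨s⁻¹ * (g.1 : G) * s, hconj g.1⟩) - c g.1)) =
        mQ (ρ (g.1 : G) - 1) u + (p : ℚ_[p]) ^ n • cQ z := by
    intro n
    have hp0 : (p : ℚ_[p]) ^ n ≠ 0 := by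
      have := (Fact.out : p.Prime).ne_zero
      positivity
    obtain ⟨P, hP⟩ := hc n
    have hfix : p ^ n • P ∈ fx M (D ⊓ H) := by
      intro g hg
      have hg' := Subgroup.mem_inf.1 hg
      have h1 : p ^ n • φ (((p : ℚ_[p]) ^ n)⁻¹ • cQ (c ⟨g, hg'.2⟩)) = 0 := by
        rw [← map_nsmul]
        have h2 : p ^ n • (((p : ℚ_[p]) ^ n)⁻¹ • cQ (c ⟨g, hg'.2⟩)) = cQ (c ⟨g, hg'.2⟩) := by
          rw [← Nat.cast_smul_eq_nsmul ℚ_[p], Nat.cast_pow, smul_smul, mul_inv_cancel₀ hp0,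
            one_smul]
        rw [h2]
        exact (hM.ker _).2 ⟨c ⟨g, hg'.2⟩, rfl⟩
      rw [hP ⟨g, hg'.2⟩ hg'.1, smul_sub, smul_comm, sub_eq_zero] at h1
      exact h1
    obtain ⟨R, hR, m, hm⟩ := ha s hs _ hfix n
    have hY : p ^ (m + n) • (p ^ a • (s • P - P) - R) = 0 := by
      rw [pow_add, mul_smul, smul_sub, smul_comm (p ^ n) (p ^ a), smul_sub (p ^ n), smul_comm (p ^ n) s]
      exact hm
    obtain ⟨x, hx⟩ := hM.tor _ _ hY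
    refine ⟨(p : ℚ_[p]) ^ n • x, fun g => ?_⟩
    set τ : H := ⟨s⁻¹ * (g.1 : G) * s, hconj g.1⟩ with hτ
    have hτG : (τ : G) = s⁻¹ * (g.1 : G) * s := rfl
    have hRg : (g.1 : G) • R = R := hR _ (Subgroup.mem_inf.2 ⟨g.2, g.1.2⟩)
    have e1 : φ (((p : ℚ_[p]) ^ n)⁻¹ • (mQ (ρ s) (cQ (c τ)) - cQ (c g.1))) =
        (g.1 : G) • (s • P - P) - (s • P - P) := by
      rw [smul_sub, map_sub, ← mQ_smul, hM.eqv, hP τ (hconjD g.1 g.2), hP g.1 g.2, hτG, smul_sub,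
        smul_sub, ← mul_smul, ← mul_smul, show s * (s⁻¹ * (g.1 : G) * s) = (g.1 : G) * s by group]
      abel
    have h3 : φ ((p : ℚ_[p]) ^ a • ((p : ℚ_[p]) ^ n)⁻¹ • (mQ (ρ s) (cQ (c τ)) - cQ (c g.1)) -
        (mQ (ρ (g.1 : G)) x - x)) = 0 := by
      have e2 : (p : ℚ_[p]) ^ a • ((p : ℚ_[p]) ^ n)⁻¹ • (mQ (ρ s) (cQ (c τ)) - cQ (c g.1)) =
          p ^ a • (((p : ℚ_[p]) ^ n)⁻¹ • (mQ (ρ s) (cQ (c τ)) - cQ (c g.1))) := by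
        rw [← Nat.cast_smul_eq_nsmul ℚ_[p], Nat.cast_pow]
      rw [e2, map_sub, map_nsmul, e1, map_sub, hM.eqv, hx, smul_sub (g.1 : G) _ R, hRg,
        smul_sub (p ^ a), smul_comm (p ^ a) (g.1 : G)]
      abel
    obtain ⟨z, hz⟩ := (hM.ker _).1 h3
    refine ⟨z, ?_⟩
    have e4 : (p : ℚ_[p]) ^ n * (p : ℚ_[p]) ^ a * ((p : ℚ_[p]) ^ n)⁻¹ = (p : ℚ_[p]) ^ a := by
      field_simp
    rw [lclP_mQ_sub, mQ_one, mQ_smul, ← hz, cQ_smul, cQ_sub, cQ_mul, smul_sub, smul_sub,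
      smul_smul, smul_smul, e4, smul_sub, smul_sub]
    abel
  obtain ⟨u, hu⟩ := hcpt p N {σ : H // (σ : G) ∈ D} (fun g => ρ (g.1 : G) - 1)
    (fun g => (p : ℤ_[p]) ^ a •
      ((ρ s).mulVec (c ⟨s⁻¹ * (g.1 : G) * s, hconj g.1⟩) - c g.1)) key
  have hpa : (p : ℚ_[p]) ^ a ≠ 0 := by
    have := (Fact.out : p.Prime).ne_zero
    positivity
  refine ⟨((p : ℚ_[p]) ^ a)⁻¹ • u, fun σ τ hσ hτ => ?_⟩
  have hτ' : τ = ⟨s⁻¹ * (σ : G) * s, hconj σ⟩ := Subtype.ext hτ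
  have h1 := hu ⟨σ, hσ⟩
  simp only at h1
  rw [← hτ', cQ_smul, cQ_sub, cQ_mul, lclP_mQ_sub, mQ_one] at h1
  rw [mQ_smul, ← smul_sub, ← h1, smul_smul, inv_mul_cancel₀ hpa, one_smul]

end Pool.Agent.NH7.GH
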