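import Pool.Agent.NH7.GH.Defs
import Pool.Agent.Y536.PS.CONJ

/-!
# B4: inert places (helper17)
-/

set_option autoImplicit false

namespace Pool.Agent.NH7.GH

open Pool.Agent.NH7.GF

/-- **B4.** -/
theorem s_kl : S_kl := by
  intro K _ E A hA g
  have h1 : (mv g A).comap (algebraMap E (SeparableClosure K)) =
      A.comap (algebraMap E (SeparableClosure K)) := hA _ (mv_comap g A)
  have hnor : Normal K (SeparableClosure K) := inferInstance
  have hE : Normal E (SeparableClosure K) := Normal.tower_top_of_normal K E (SeparableClosure K)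
  obtain ⟨τ, hτ⟩ := Pool.Agent.Y536.PS.conj E (SeparableClosure K) A (mv g A) h1.symm
  refine ⟨τ.restrictScalars K, ?_, ?_⟩
  · rw [IntermediateField.mem_fixingSubgroup_iff]
    intro x hx
    exact τ.commutes ⟨x, hx⟩
  · rw [mem_Dec]
    intro x
    have h2 := hτ (g x)
    rw [mem_mv, inv_app] at h2
    exact h2.symm

end Pool.Agent.NH7.GH
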