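import Pool.Agent.NH7.GH.Defs
import Pool.Agent.NH7.GF.HzP

/-!
# Local `p`-th powers
-/

set_option autoImplicit false
set_option linter.unusedSectionVars false

namespace Pool.Agent.NH7.GH

open Pool.Agent.NH7.GF

/-- B8. Local `p`-th powers. -/
theorem s_lz : S_lz := by
  intro k K _ _ _ p hp ζ hζ v A hA h t κ hh hκ g hg
  have hh0 : h ≠ 0 := by
    rintro rfl
    rw [v.ord_zero] at hh
    exact lt_irrefl _ hh
  have hp0 : (0 : ℤ) < p := by exact_mod_cast hp.out.pos
  set H : Kˣ := Units.mk0 h hh0 with hH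
  set u : Kˣ := κ * (H ^ p)⁻¹ with hu
  set e : K := algebraMap k K t * (h ^ p)⁻¹ with he
  have hue : (u : K) = 1 - e := by
    rw [hu, Units.val_mul, Units.val_inv_eq_inv_val, Units.val_pow_eq_pow_val, hH,
      Units.val_mk0, hκ, he, sub_mul, mul_inv_cancel₀ (pow_ne_zero p hh0)]
  have he1 : e = 0 ∨ 0 < v.ord e := by
    by_cases ht : t = 0
    · left
      rw [he, ht, map_zero, zero_mul]
    · right
      have ht' : algebraMap k K t ≠ 0 := (map_ne_zero _).2 ht
      rw [he, v.ord_mul ht' (inv_ne_zero (pow_ne_zero p hh0)), v.ord_const ht, v.ord_inv,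
        v.ord_pow]
      nlinarith
  have her : v.Reg e := he1.imp id fun h => h.le
  have hred : v.red (u : K) = 1 := by
    rw [hue, v.red_sub v.reg_one her, v.red_one, (v.red_eq_zero_iff her).2 he1, sub_zero]
  have hur : v.Reg (u : K) := by
    rw [hue, sub_eq_add_neg]
    exact v.reg_add v.reg_one (v.reg_neg her)
  have hu0 : ¬ ((u : K) = 0 ∨ 0 < v.ord (u : K)) := by
    intro h1
    rw [(v.red_eq_zero_iff hur).2 h1] at hred
    exact zero_ne_one hred
  push Not at hu0
  have huo : v.ord (u : K) = 0 := le_antisymm hu0.2 ((v.reg_iff hu0.1).1 hur)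
  have h1 := s_hz k K p ζ hζ v A hA u huo ⟨1, v.reg_one, by rw [hred, v.red_one, one_pow]⟩ g hg
  have h2 : κ = u * H ^ p := by rw [hu, inv_mul_cancel_right]
  rw [h2, kp_mul_left, h1, kp_ppow, add_zero]

end Pool.Agent.NH7.GH
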