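import Pool.Agent.NH7.GH.Defs
import Pool.Agent.NH7.GF.ExtP
import Pool.Agent.NH7.GF.InzP

/-!
# The characters with trivial residual Selmer group
-/

set_option autoImplicit false
set_option linter.unusedSectionVars false

namespace Pool.Agent.NH7.GH

open Pool.Agent.H525R3.FFp
open Pool.Agent.NH7.GF

theorem mn_ab {k K : Type} [Field k] [Field K] [Algebra k K] (v : FF.Place k K) : Ab v (Av v) := by
  have h : ∃ A : ValuationSubring (SeparableClosure K), Ab v A := s_ext k K v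
  rw [Av, dif_pos h]
  exact Classical.choose_spec h

theorem mn_sub {K : Type} [Field K] {p : ℕ} [Fact p.Prime] {x y : GK K → ZMod p} (hx : Hm x)
    (hy : Hm y) (a : ZMod p) : Hm (fun g => x g - a * y g) := by
  have h := hx.add (hy.smul (-a))
  have e : (x + (-a) • y) = fun g => x g - a * y g := by
    funext g
    simp only [Pi.add_apply, Pi.smul_apply, smul_eq_mul]
    ring
  rwa [e] at h

theorem mn_kp {K : Type} [Field K] {p : ℕ} [Fact p.Prime] {ζ : K} (hζ : IsPrimitiveRoot ζ p)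
    (κ : Kˣ) : Hm (kp hζ κ) := ⟨kp_cont hζ κ, kp_mul_right hζ κ⟩

/-- orders of `h' ^ p - t` -/
theorem mn_ord {k K : Type} [Field k] [Field K] [Algebra k K] (w : FF.Place k K) {p : ℕ}
    (hp : 0 < p) (h' : K) (t : k) (h0 : w.ord h' < 0) :
    w.ord (h' ^ p - algebraMap k K t) = p * w.ord h' := by
  have h1 : w.ord (h' ^ p) = p * w.ord h' := w.ord_pow h' p
  have h2 : w.ord (h' ^ p) < 0 := by
    rw [h1]
    have : (0 : ℤ) < p := by exact_mod_cast hp
    nlinarith
  by_cases ht : t = 0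
  · rw [ht, map_zero, sub_zero, h1]
  have hne : h' ≠ 0 := by
    rintro rfl
    rw [w.ord_zero] at h0
    exact lt_irrefl _ h0
  have h3 : algebraMap k K t ≠ 0 := (map_ne_zero_iff _ (algebraMap k K).injective).2 ht
  have h4 := w.ord_add_eq (f := h' ^ p) (g := - algebraMap k K t) (pow_ne_zero _ hne)
    (neg_ne_zero.2 h3) (by rw [w.ord_neg, w.ord_const ht]; exact h2)
  rw [sub_eq_add_neg, h4.2, h1]

theorem mn_dvd {k K : Type} [Field k] [Field K] [Algebra k K] (w : FF.Place k K) {p : ℕ}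
    (hp : 0 < p) (h' : K) (t : k) (hle : w.ord (h' ^ p - algebraMap k K t) ≤ 0)
    (hne : h' ^ p - algebraMap k K t ≠ 0) :
    (p : ℤ) ∣ w.ord (h' ^ p - algebraMap k K t) := by
  rcases lt_or_ge (w.ord h') 0 with h | h
  · rw [mn_ord w hp h' t h]
    exact dvd_mul_right _ _
  · have h1 : w.Reg (h' ^ p) := Or.inr (by
      rw [w.ord_pow]
      exact mul_nonneg (Int.natCast_nonneg p) h)
    have h2 : w.Reg (h' ^ p - algebraMap k K t) := by
      rw [sub_eq_add_neg]
      exact w.reg_add h1 (w.reg_neg (w.reg_const t))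
    have h3 := (w.reg_iff hne).1 h2
    have h4 : w.ord (h' ^ p - algebraMap k K t) = 0 := le_antisymm hle h3
    rw [h4]
    exact dvd_zero _

/-- the field cut out by a finite set of characters -/
theorem mn_fld {K : Type} [Field K] {p : ℕ} [Fact p.Prime] (X : Set (GK K → ZMod p))
    (hfin : X.Finite) (hX : ∀ x ∈ X, Hm x) : ∃ E : IntermediateField K (SeparableClosure K),
      FiniteDimensional K E ∧ ∀ x ∈ X, ∀ g ∈ E.fixingSubgroup, x g = 0 := by
  let N : Subgroup (GK K) :=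
    { carrier := {g | ∀ x ∈ X, x g = 0}
      mul_mem' := fun {a b} ha hb => by
        intro x hx
        rw [(hX x hx).m, ha x hx, hb x hx, add_zero]
      one_mem' := fun x hx => hm_one (hX x hx)
      inv_mem' := fun {a} ha => by
        intro x hx
        rw [hm_inv (hX x hx), ha x hx, neg_zero] }
  have hN : (N : Set (GK K)) = ⋂ x ∈ X, x ⁻¹' {0} := by
    ext g
    simp only [Set.mem_iInter, Set.mem_preimage, Set.mem_singleton_iff]
    exact Iff.rfl
  have hopen : IsOpen (N : Set (GK K)) := by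
    rw [hN]
    exact hfin.isOpen_biInter fun x hx => (isOpen_discrete {0}).preimage (hX x hx).c
  have hclosed : IsClosed (N : Set (GK K)) := by
    rw [hN]
    exact isClosed_biInter fun x hx => isClosed_singleton.preimage (hX x hx).c
  have hfix : (IntermediateField.fixedField N).fixingSubgroup = N :=
    InfiniteGalois.fixingSubgroup_fixedField ⟨N, hclosed⟩
  refine ⟨IntermediateField.fixedField N, ?_, ?_⟩
  · rw [← InfiniteGalois.isOpen_iff_finite, hfix]
    exact hopen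
  · intro x hx g hg
    rw [hfix] at hg
    exact hg x hx

theorem s_mn (h1 : S_dvdH) (_h2 : S_plcH) (h3 : S_rfin) (h4 : S_kl) (h6 : S_hilv) (h7 : S_pole)
    (h8 : S_lz) : S_mn := by
  classical
  intro k K _ _ _ _ _ p _ ζ hζ hH hPic S B hS χ₀ h0
  have hp : p.Prime := Fact.out
  obtain ⟨κ₀, hκ₀⟩ := kp_surj hζ h0.c h0.m
  -- the bad places
  obtain ⟨T, hT⟩ : ∃ T : Finset (FF.Place k K), T = S ∪ B ∪ (finite_support (κ₀ : K)).toFinset :=
    ⟨_, rfl⟩
  have hST : ∀ v ∈ S, v ∈ T := fun v hv => by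
    rw [hT]; exact Finset.mem_union_left _ (Finset.mem_union_left _ hv)
  have hBT : ∀ v ∈ B, v ∈ T := fun v hv => by
    rw [hT]; exact Finset.mem_union_left _ (Finset.mem_union_right _ hv)
  have hord : ∀ v, v ∉ T → v.ord (κ₀ : K) = 0 := by
    intro v hv
    by_contra hcon
    apply hv
    rw [hT]
    exact Finset.mem_union_right _ ((Set.Finite.mem_toFinset _).2 hcon)
  have hunr0 : ∀ v, v ∉ T → ∀ g ∈ Inr (Av v), χ₀ g = 0 := by
    intro v hv g hg
    rw [← hκ₀]
    exact s_inz k K p ζ hζ v (Av v) (mn_ab v) κ₀ (by rw [hord v hv]; exact dvd_zero _) g hg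
  -- the finite set
  obtain ⟨X, hXdef⟩ : ∃ X : Set (GK K → ZMod p), X = {x | Hm x ∧
      (∀ v ∉ S, (∀ g ∈ Inr (Av v), χ₀ g = 0) → ∀ g ∈ Inr (Av v), x g = 0) ∧
      (∀ v ∉ S, (∃ g ∈ Inr (Av v), χ₀ g ≠ 0) → ∃ a : ZMod p, ∀ g ∈ Dec (Av v), x g = a * χ₀ g) ∧
      (∀ v ∈ S, ∃ a : ZMod p, ∀ g ∈ Dec (Av v), x g = a * χ₀ g)} := ⟨_, rfl⟩
  obtain ⟨w₀, hw₀⟩ := hS
  have hXfin : X.Finite := by
    have hR := h3 k K p ζ hζ hPic T w₀
    have hI := hR.image2 (fun (y : GK K → ZMod p) (a : ZMod p) => fun g => y g + a * χ₀ g)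
      (Set.finite_univ : (Set.univ : Set (ZMod p)).Finite)
    refine hI.subset ?_
    intro x hx
    rw [hXdef] at hx
    obtain ⟨hx0, hx1, hx2, hx3⟩ := hx
    obtain ⟨a, ha⟩ := hx3 w₀ hw₀
    refine ⟨fun g => x g - a * χ₀ g, ⟨mn_sub hx0 h0 a, ?_, ?_⟩, a, Set.mem_univ a, ?_⟩
    · intro v hv g hg
      have e1 := hunr0 v hv
      have e2 := hx1 v (fun h => hv (hST v h)) e1 g hg
      simp only
      rw [e2, e1 g hg, mul_zero, sub_zero]
    · intro g hg
      simp only
      rw [ha g hg, sub_self]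
    · funext g
      simp only
      ring
  obtain ⟨E, hE, hEX⟩ := mn_fld X hXfin (fun x hx => by
    rw [hXdef] at hx
    exact hx.1)
  obtain ⟨h', htr', hpole⟩ := h7 k K T ⟨w₀, hST w₀ hw₀⟩
  have htr : Transcendental k (h' ^ p) := htr'.pow hp.pos
  obtain ⟨t, v, hv1, hvu, hcomap⟩ := h6 k K hH E hE (h' ^ p) htr
  have hne : h' ^ p - algebraMap k K t ≠ 0 := by
    intro h
    rw [h, v.ord_zero] at hv1
    exact zero_ne_one hv1
  obtain ⟨κ, hκ⟩ : ∃ κ : Kˣ, (κ : K) = h' ^ p - algebraMap k K t := ⟨Units.mk0 _ hne, rfl⟩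
  have hvT : v ∉ T := by
    intro hv
    have e1 := hpole v hv
    have e2 := mn_ord v hp.pos h' t e1
    rw [hv1] at e2
    have e3 : (0 : ℤ) < p := by exact_mod_cast hp.pos
    nlinarith
  -- the character
  obtain ⟨χ, hχdef⟩ : ∃ χ : GK K → ZMod p, χ = fun g => χ₀ g + kp hζ κ g := ⟨_, rfl⟩
  have hχ : Hm χ := by
    rw [hχdef]
    exact h0.add (mn_kp hζ κ)
  have hχT : ∀ w ∈ T, ∀ g ∈ Dec (Av w), χ g = χ₀ g := by
    intro w hw g hg
    rw [hχdef]
    simp only
    rw [h8 k K p ζ hζ w (Av w) (mn_ab w) h' t κ (hpole w hw) hκ g hg, add_zero]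
  have hχv : ∃ g ∈ Inr (Av v), χ g ≠ 0 := by
    by_contra hcon
    push Not at hcon
    have e1 : ∀ g ∈ Inr (Av v), kp hζ κ g = 0 := by
      intro g hg
      have e2 := hcon g hg
      rw [hχdef] at e2
      simp only at e2
      rwa [hunr0 v hvT g hg, zero_add] at e2
    have e3 := h1 k K p ζ hζ v (Av v) (mn_ab v) κ e1
    rw [hκ, hv1] at e3
    have e4 : (p : ℤ) ≤ 1 := Int.le_of_dvd one_pos e3
    have e5 : (2 : ℤ) ≤ p := by exact_mod_cast hp.two_le
    omega
  have hχunr : ∀ w, w ∉ T → w ≠ v → ∀ g ∈ Inr (Av w), χ g = 0 := by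
    intro w hw hwv g hg
    rw [hχdef]
    simp only
    have e1 : w.ord (h' ^ p - algebraMap k K t) ≤ 0 := by
      by_contra hcon
      push Not at hcon
      exact hwv (hvu w hcon)
    rw [hunr0 w hw g hg, zero_add]
    exact s_inz k K p ζ hζ w (Av w) (mn_ab w) κ (by
      rw [hκ]
      exact mn_dvd w hp.pos h' t e1 hne) g hg
  refine ⟨χ, hχ, ?_, ⟨v, fun h => hvT (hBT v h), fun h => hvT (hST v h), hχv⟩, ?_⟩
  · rintro w (hw | hw)
    · exact hχT w (hBT w hw)
    · exact hχT w (hST w hw)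
  intro x hx c1 c2 c3
  obtain ⟨a, ha⟩ := c2 v (fun h => hvT (hST v h)) hχv
  refine ⟨a, ?_⟩
  have hy : Hm (fun g => x g - a * χ g) := mn_sub hx hχ a
  have hyX : (fun g => x g - a * χ g) ∈ X := by
    rw [hXdef]
    refine ⟨hy, ?_, ?_, ?_⟩
    · intro w hw hw0 g hg
      simp only
      by_cases hwv : w = v
      · rw [hwv] at hg
        rw [ha g (Inr_le _ hg), sub_self]
      · have e1 : ∀ g ∈ Inr (Av w), χ g = 0 := by
          by_cases hwT : w ∈ T
          · intro g hg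
            rw [hχT w hwT g (Inr_le _ hg), hw0 g hg]
          · exact hχunr w hwT hwv
        rw [c1 w hw e1 g hg, e1 g hg, mul_zero, sub_zero]
    · intro w hw ⟨g₀, hg₀, hg₀'⟩
      have hwT : w ∈ T := by
        by_contra hcon
        exact hg₀' (hunr0 w hcon g₀ hg₀)
      obtain ⟨b, hb⟩ := c2 w hw ⟨g₀, hg₀, by rwa [hχT w hwT g₀ (Inr_le _ hg₀)]⟩
      refine ⟨b - a, fun g hg => ?_⟩
      simp only
      rw [hb g hg, hχT w hwT g hg]
      ring
    · intro w hw
      obtain ⟨b, hb⟩ := c3 w hw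
      refine ⟨b - a, fun g hg => ?_⟩
      simp only
      rw [hb g hg, hχT w (hST w hw) g hg]
      ring
  intro g
  obtain ⟨τ, hτ, hτg⟩ := h4 K E (Av v) (fun A' hA' => by
    refine hcomap A' (Av v) ?_ (mn_ab v)
    have e : (Av v).comap (algebraMap K (SeparableClosure K)) = v.O := mn_ab v
    exact hA'.trans e) g
  have e1 : x (τ * g) - a * χ (τ * g) = 0 := by
    rw [ha _ hτg, sub_self]
  have e2 : x (τ * g) - a * χ (τ * g) = (x τ - a * χ τ) + (x g - a * χ g) := hy.m τ g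
  have e3 : x τ - a * χ τ = 0 := hEX _ hyX τ hτ
  rw [e1, e3, zero_add] at e2
  exact (sub_eq_zero.1 e2.symm)

end Pool.Agent.NH7.GH
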