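import Pool.Agent.NH7.GH.Defs
import Pool.Agent.NH7.GF.PlcP

/-!
# GH, B2: the valuation rings which contain `k` are those of places
-/

set_option autoImplicit false
set_option linter.all false
set_option linter.overlappingInstances false

open Module IsDedekindDomain IntermediateField FF
open Pool.Agent.H525R3.FFp

namespace Pool.Agent.NH7.GH.PlcH

open Pool.Agent.NH7.GF.Plc (mem_of_isIntegral place_of_ded)

theorem exists_place {k K : Type*} [Field k] [CharZero k] [Field K] [Algebra k K] [h : IsFF k K]
    (O : ValuationSubring K) (hO : O ≠ ⊤) (hk : ∀ c : k, algebraMap k K c ∈ O) :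
    ∃ v : Place k K, v.O = O := by
  obtain ⟨x, hx⟩ := exists_D_ne (k := k) (K := K)
  obtain ⟨f, hfD, hfO⟩ : ∃ f : K, KaehlerDifferential.D k K f ≠ 0 ∧ f ∈ O := by
    rcases O.mem_or_inv_mem x with h1 | h1
    · exact ⟨x, hx, h1⟩
    · exact ⟨x⁻¹, D_inv_ne hx, h1⟩
  obtain ⟨hf, hsep⟩ := sep_of_D_ne hfD
  open scoped algebraAdjoinAdjoin in
  let A := Algebra.adjoin k {f}
  let e := Polynomial.algEquivOfTranscendental k f hf
  have hpid : IsPrincipalIdealRing A := IsPrincipalIdealRing.of_surjective e.toRingEquiv e.surjective
  have hded : IsDedekindDomain A := inferInstance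
  have hfin := IsFF.finite hf
  let B := integralClosure A K
  have : IsDedekindDomain B := integralClosure.isDedekindDomain A k⟮f⟯ K
  have : IsFractionRing B K := integralClosure.isFractionRing_of_finite_extension k⟮f⟯ K
  have hsc : IsScalarTower k B K := by
    refine IsScalarTower.of_algebraMap_eq fun c => ?_
    rw [IsScalarTower.algebraMap_apply k A B, ← IsScalarTower.algebraMap_apply A B K,
      ← IsScalarTower.algebraMap_apply k A K]
  have hreg : ∀ a : A, algebraMap A K a ∈ O := by
    rintro ⟨a, ha⟩
    change a ∈ O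
    induction ha using Algebra.adjoin_induction with
    | mem x hx =>
      rw [Set.mem_singleton_iff] at hx
      subst hx
      exact hfO
    | algebraMap r => exact hk r
    | add x y _ _ hx hy => exact O.add_mem _ _ hx hy
    | mul x y _ _ hx hy => exact O.mul_mem _ _ hx hy
  exact place_of_ded (B := B) O hO fun b => mem_of_isIntegral O hreg b.2

end Pool.Agent.NH7.GH.PlcH

namespace Pool.Agent.NH7.GH

theorem s_plcH : S_plcH := by
  intro k K _ _ _ _ _
  refine ⟨fun O hO hk => PlcH.exists_place O hO hk, ?_⟩
  intro A hA
  rw [eq_top_iff]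
  intro x _
  refine Pool.Agent.NH7.GF.Plc.mem_of_isIntegral (A := K) A (fun a => ?_) ?_
  · have : a ∈ A.comap (algebraMap K (SeparableClosure K)) := by
      rw [hA]
      exact ValuationSubring.mem_top a
    exact this
  · exact Algebra.IsIntegral.isIntegral x

end Pool.Agent.NH7.GH
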