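import Pool.Agent.NH7.GH.Defs
import Pool.Agent.H133R3.ZT.WA

/-!
# B7. Elements with given poles (helper31)
-/

set_option autoImplicit false

namespace Pool.Agent.NH7.GH

namespace PoleP

/-- an element with given negative or small orders at finitely many places -/
theorem apx {k K : Type} [Field k] [Field K] [Algebra k K] (T : Finset (FF.Place k K))
    (a : FF.Place k K → K) (n : ℤ) (ha : ∀ v ∈ T, a v ≠ 0 ∧ v.ord (a v) < n) :
    ∃ f : K, ∀ v ∈ T, f ≠ 0 ∧ v.ord f = v.ord (a v) := by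
  obtain ⟨f, hf⟩ := Pool.Agent.H133R3.ZT.taskWA k K T a n
  refine ⟨f, fun v hv => ?_⟩
  obtain ⟨h1, h2⟩ := ha v hv
  by_cases h0 : f - a v = 0
  · rw [sub_eq_zero.1 h0]
    exact ⟨h1, rfl⟩
  · rcases hf v hv with h | h
    · exact absurd (sub_eq_zero.2 h) h0
    · have h3 := v.ord_add_eq h1 h0 (lt_of_lt_of_le h2 h)
      rw [add_sub_cancel] at h3
      exact h3

end PoleP

theorem s_pole : S_pole := by
  intro k K _ _ _ _ _ T hT
  have hs : ∀ v : FF.Place k K, ∃ t : K, t ≠ 0 ∧ v.ord t = 1 := fun v => v.surj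
  choose t ht0 ht using hs
  obtain ⟨f, hf⟩ := PoleP.apx T (fun v => (t v)⁻¹) 0 (fun v _ =>
    ⟨inv_ne_zero (ht0 v), by rw [v.ord_inv, ht v]; norm_num⟩)
  have key : ∀ v ∈ T, v.ord f < 0 := by
    intro v hv
    rw [(hf v hv).2, v.ord_inv, ht v]
    norm_num
  obtain ⟨v, hv⟩ := hT
  exact ⟨f, v.transcendental_of_ord_ne (key v hv).ne, key⟩

end Pool.Agent.NH7.GH
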