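import Pool.Agent.NH7.GH.Fin
import Pool.Agent.NH7.GF.All

/-!
# Going up over function fields over Hilbertian fields: ramification
-/

set_option autoImplicit false
set_option linter.unusedSectionVars false

namespace Pool.Agent.NH7.GH

open Pool.Agent.H525R3.FFp Matrix
open Pool.Agent.NH7.GF

variable {k K : Type} [Field k] [CharZero k] [Field K] [Algebra k K] [FF.IsFF k K] {p : ℕ}
  [hp : Fact p.Prime] {ζ : K}

/-- ramification at one valuation ring above `v` is ramification at all of them -/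
theorem ram_all {v : FF.Place k K}
    {A A' : ValuationSubring (SeparableClosure K)} (hA : Ab v A) (hA' : Ab v A')
    {χ : GK K → ZMod p} (hχ : Hm χ) (h : ∃ g ∈ Inr A, χ g ≠ 0) : ∃ g ∈ Inr A', χ g ≠ 0 := by
  obtain ⟨g, hg, hg0⟩ := h
  obtain ⟨a, ha⟩ := AvH_mv s_ext s_cnj hA
  obtain ⟨b, hb⟩ := AvH_mv s_ext s_cnj hA'
  have h1 : a * g * a⁻¹ ∈ Inr (Av v) := by
    rw [← ha]
    exact (Inr_mv a g).1 hg
  refine ⟨b⁻¹ * (a * g * a⁻¹) * b, ?_, ?_⟩
  · rw [Inr_mv b, hb]
    have e2 : b * (b⁻¹ * (a * g * a⁻¹) * b) * b⁻¹ = a * g * a⁻¹ := by group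
    rw [e2]
    exact h1
  · have e3 := hm_conj hχ b⁻¹ (a * g * a⁻¹)
    rw [inv_inv] at e3
    rw [e3, hm_conj hχ]
    exact hg0

variable (k) in
/-- a homomorphism to `ℤ/p` which is not trivial on the inertia groups above a given finite set -/
theorem exists_ramH (hram : S_ram) (hplc : S_plcH) (hdvd : S_dvdH) (hζ : IsPrimitiveRoot ζ p)
    {S : Set (ValuationSubring K)} (hS : S.Finite) :
    ∃ χ : GK K → ZMod p, Hm χ ∧
      ∀ A : ValuationSubring (SeparableClosure K), A ≠ ⊤ → Trv k A →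
        A.comap (algebraMap K (SeparableClosure K)) ∈ S → ∃ g ∈ Inr A, χ g ≠ 0 := by
  classical
  have hinj : Function.Injective (fun v : FF.Place k K => v.O) := fun v w hvw => OH_inj hvw
  have hfS : {v : FF.Place k K | v.O ∈ S}.Finite := hS.preimage hinj.injOn
  obtain ⟨κ, hκ⟩ := hram k K hfS.toFinset
  refine ⟨kp hζ κ, ⟨kp_cont hζ κ, kp_mul_right hζ κ⟩, fun A hA hAt hAS => ?_⟩
  obtain ⟨v, hv⟩ := comapH_ne (k := k) hplc hA hAt
  have hv' : A.comap (algebraMap K (SeparableClosure K)) = v.O := hv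
  rw [hv'] at hAS
  by_contra hne
  push Not at hne
  have h1 := hdvd k K p ζ hζ v A hv κ hne
  rw [hκ v (hfS.mem_toFinset.2 hAS)] at h1
  have h2 : (p : ℤ) ≤ 1 := Int.le_of_dvd one_pos h1
  have h3 := hp.out.two_le
  omega

variable (k) in
/-- homomorphisms to `ℤ/p` are ramified at finitely many places only -/
theorem fin_ramH (hplc : S_plcH) (hζ : IsPrimitiveRoot ζ p)
    {χ : GK K → ZMod p} (hχ : Hm χ) : ∃ T : Set (ValuationSubring K), T.Finite ∧
    ∀ A : ValuationSubring (SeparableClosure K), A ≠ ⊤ → Trv k A →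
      A.comap (algebraMap K (SeparableClosure K)) ∉ T → ∀ g ∈ Inr A, χ g = 0 := by
  obtain ⟨κ, hκ⟩ := kp_surj hζ hχ.c hχ.m
  have hf : {v : FF.Place k K | v.ord (κ : K) ≠ 0}.Finite := finite_support (κ : K)
  refine ⟨(fun v : FF.Place k K => v.O) '' {v : FF.Place k K | v.ord (κ : K) ≠ 0}, hf.image _,
    fun A hA hAt hAT g hg => ?_⟩
  obtain ⟨v, hv⟩ := comapH_ne (k := k) hplc hA hAt
  have hv' : A.comap (algebraMap K (SeparableClosure K)) = v.O := hv
  have h0 : v.ord (κ : K) = 0 := by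
    by_contra h0
    exact hAT ⟨v, h0, hv'.symm⟩
  rw [← hκ]
  exact s_inz k K p ζ hζ v A hv κ (by rw [h0]; exact dvd_zero _) g hg

omit [CharZero k] in
/-- valuations and orders -/
theorem val_iff (v : FF.Place k K) (x y : Kˣ) :
    v.O.valuation (x : K) = v.O.valuation (y : K) ↔ v.ord (x : K) = v.ord (y : K) := by
  have key : ∀ x y : Kˣ, v.O.valuation (x : K) ≤ v.O.valuation (y : K) ↔
      v.ord (y : K) ≤ v.ord (x : K) := by
    intro x y
    have hy : v.O.valuation (y : K) ≠ 0 := (Valuation.ne_zero_iff _).2 y.ne_zero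
    have h1 : v.O.valuation (x : K) ≤ v.O.valuation (y : K) ↔ v.Reg ((x / y : Kˣ) : K) := by
      have h2 : v.Reg ((x / y : Kˣ) : K) ↔ ((x / y : Kˣ) : K) ∈ v.O := Iff.rfl
      rw [h2, ← ValuationSubring.valuation_le_one_iff, Units.val_div_eq_div_val, map_div₀,
        div_le_one₀ (zero_lt_iff.2 hy)]
    have e : ((x / y : Kˣ) : K) = (x : K) * ((y : K))⁻¹ := by
      rw [Units.val_div_eq_div_val, div_eq_mul_inv]
    rw [h1, v.reg_iff (x / y : Kˣ).ne_zero, e, v.ord_mul x.ne_zero (inv_ne_zero y.ne_zero), v.ord_inv]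
    omega
  rw [le_antisymm_iff, key, key, le_antisymm_iff]
  exact And.comm

end Pool.Agent.NH7.GH
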