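import Pool.Agent.NH7.GH.PoleP

/-!
# B10. Ramified characters (helper31)
-/

set_option autoImplicit false

namespace Pool.Agent.NH7.GH

theorem s_ram : S_ram := by
  intro k K _ _ _ _ _ T
  have hs : ∀ v : FF.Place k K, ∃ t : K, t ≠ 0 ∧ v.ord t = 1 := fun v => v.surj
  choose t ht0 ht using hs
  obtain ⟨f, hf⟩ := PoleP.apx T t 2 (fun v _ => ⟨ht0 v, by rw [ht v]; norm_num⟩)
  by_cases h0 : f = 0
  · refine ⟨1, fun v hv => absurd h0 (hf v hv).1⟩
  · refine ⟨Units.mk0 f h0, fun v hv => ?_⟩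
    rw [Units.val_mk0, (hf v hv).2, ht v]

end Pool.Agent.NH7.GH
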