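import Pool.Agent.NH7.GH.Defs
import Pool.Agent.NH7.GF.ExtP

/-!
# Finiteness (B3)
-/

set_option autoImplicit false
set_option linter.unusedSectionVars false

namespace Pool.Agent.NH7.GH

open Pool.Agent.H525R3.FFp Filter Topology
open Pool.Agent.NH7.GF

namespace Rfin

/-- finiteness from finitely many classes -/
theorem fin_of_classes {V ι : Type} [AddCommGroup V] (A B : Set V) (I : Set ι) (hI : I.Finite)
    (hB : B.Finite) (R : V → ι → Prop) (h1 : ∀ x ∈ A, ∃ i ∈ I, R x i)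
    (h2 : ∀ x ∈ A, ∀ y ∈ A, ∀ i, R x i → R y i → x - y ∈ B) : A.Finite := by
  refine (Set.Finite.biUnion hI (t := fun i => {x | x ∈ A ∧ R x i}) fun i _ => ?_).subset ?_
  · by_cases hne : ∃ y, y ∈ A ∧ R y i
    · obtain ⟨y, hy, hR⟩ := hne
      refine (hB.image fun z => z + y).subset fun x hx => ?_
      exact ⟨x - y, h2 x hx.1 y hy i hx.2 hR, sub_add_cancel x y⟩
    · have h3 : {x | x ∈ A ∧ R x i} = ∅ := by
        ext x
        simp only [Set.mem_setOf_eq, Set.mem_empty_iff_false, iff_false]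
        exact fun hx => hne ⟨x, hx⟩
      rw [h3]
      exact Set.finite_empty
  · intro x hx
    obtain ⟨i, hi, hR⟩ := h1 x hx
    exact Set.mem_biUnion hi ⟨hx, hR⟩

section

variable {k K : Type} [Field k] [CharZero k] [Field K] [Algebra k K] [FF.IsFF k K]
  {p : ℕ} [hp : Fact p.Prime] {ζ : K} (hζ : IsPrimitiveRoot ζ p)

include hζ in
theorem kp_div (κ κ' : Kˣ) (g : GK K) : kp hζ (κ * κ'⁻¹) g = kp hζ κ g - kp hζ κ' g := by
  rw [kp_mul_left, kp_inv_left, sub_eq_add_neg]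

theorem ord_div_units (v : FF.Place k K) (κ κ' : Kˣ) :
    v.ord ((κ * κ'⁻¹ : Kˣ) : K) = v.ord (κ : K) - v.ord (κ' : K) := by
  rw [Units.val_mul, v.ord_mul κ.ne_zero (Units.ne_zero _), Units.val_inv_eq_inv_val, v.ord_inv]
  ring

theorem ord_mul_units (v : FF.Place k K) (κ κ' : Kˣ) :
    v.ord ((κ * κ' : Kˣ) : K) = v.ord (κ : K) + v.ord (κ' : K) := by
  rw [Units.val_mul, v.ord_mul κ.ne_zero κ'.ne_zero]

theorem ord_pow_units (v : FF.Place k K) (κ : Kˣ) (n : ℕ) :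
    v.ord ((κ ^ n : Kˣ) : K) = n * v.ord (κ : K) := by
  rw [Units.val_pow_eq_pow_val, v.ord_pow]

omit [CharZero k] [FF.IsFF k K] in
theorem av_ab (v : FF.Place k K) : Ab v (Av v) := by
  have h : ∃ A : ValuationSubring (SeparableClosure K), Ab v A := s_ext k K v
  rw [Av, dif_pos h]
  exact Classical.choose_spec h

/-- the divisor of `κ` divided by `p` -/
noncomputable def Dp (k : Type) {K : Type} [Field k] [CharZero k] [Field K] [Algebra k K]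
    [FF.IsFF k K] (p : ℕ) (κ : Kˣ) : FF.Place k K →₀ ℤ :=
  (divisor k (κ : K)).mapRange (fun n => n / (p : ℤ)) (Int.zero_ediv _)

theorem Dp_spec (κ : Kˣ) (h : ∀ v : FF.Place k K, (p : ℤ) ∣ v.ord (κ : K)) (v : FF.Place k K) :
    (p : ℤ) * Dp k p κ v = v.ord (κ : K) := by
  unfold Dp
  rw [Finsupp.mapRange_apply, divisor_apply]
  exact Int.mul_ediv_cancel' (h v)

include hζ in
/-- the classes with all orders divisible by `p` -/
theorem fin2 (h1 : S_cst) (hP : PicF k K p) (w : FF.Place k K) :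
    {x : GK K → ZMod p | ∃ κ : Kˣ, (∀ v : FF.Place k K, (p : ℤ) ∣ v.ord (κ : K)) ∧
      (∀ g ∈ Dec (Av w), kp hζ κ g = 0) ∧ x = kp hζ κ}.Finite := by
  classical
  obtain ⟨s, hs⟩ := hP
  obtain ⟨s', hs'⟩ := h1 k K p ζ hζ w (Av w) (av_ab w)
  refine fin_of_classes _ ((fun c₀ : Kˣ => (kp hζ c₀ : GK K → ZMod p)) '' (s' : Set Kˣ))
    (s : Set (FF.Place k K →₀ ℤ)) s.finite_toSet (s'.finite_toSet.image _)
    (fun x D₀ => ∃ κ β : Kˣ, (∀ g ∈ Dec (Av w), kp hζ κ g = 0) ∧ x = kp hζ κ ∧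
      ∀ v : FF.Place k K, v.ord (κ : K) = p * (D₀ v + v.ord (β : K))) ?_ ?_
  · rintro x ⟨κ, hκ, hκ2, rfl⟩
    obtain ⟨D₀, hD₀, β, hβ⟩ := hs (Dp k p κ) ⟨κ, fun v => Dp_spec κ hκ v⟩
    refine ⟨D₀, hD₀, κ, β, hκ2, rfl, fun v => ?_⟩
    rw [← hβ v, Dp_spec κ hκ v]
  · rintro x - y - D₀ ⟨κ, β, hκ2, rfl, hκ⟩ ⟨κ', β', hκ2', rfl, hκ'⟩
    have hk : ∀ g, kp hζ (κ * κ'⁻¹ * ((β' * β⁻¹) ^ p)) g = kp hζ κ g - kp hζ κ' g := by
      intro g
      rw [kp_mul_left, kp_ppow, add_zero, kp_div]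
    obtain ⟨c₀, hc₀, b, hb⟩ := hs' (κ * κ'⁻¹ * ((β' * β⁻¹) ^ p)) (by
      intro v
      rw [ord_mul_units, ord_div_units, ord_pow_units, ord_div_units, hκ, hκ']
      ring) (by
      intro g hg
      rw [hk, hκ2 g hg, hκ2' g hg, sub_zero])
    refine ⟨c₀, hc₀, ?_⟩
    funext g
    have h3 := hk g
    rw [hb, kp_mul_left, kp_ppow, add_zero] at h3
    exact h3

end

end Rfin

open Rfin in
theorem s_rfin (h1 : S_cst) (h2 : S_dvdH) : S_rfin := by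
  classical
  intro k K _ _ _ _ _ p _ ζ hζ hP T w
  have hf2 := fin2 (k := k) (K := K) hζ h1 hP w
  have hf1 : {x : GK K → ZMod p | ∃ κ : Kˣ, (∀ v : FF.Place k K, v ∉ T → (p : ℤ) ∣ v.ord (κ : K)) ∧
      (∀ g ∈ Dec (Av w), kp hζ κ g = 0) ∧ x = kp hζ κ}.Finite := by
    refine fin_of_classes _ _ (Set.univ : Set ({v // v ∈ T} → ZMod p)) Set.finite_univ hf2
      (fun x r => ∃ κ : Kˣ, (∀ v : FF.Place k K, v ∉ T → (p : ℤ) ∣ v.ord (κ : K)) ∧
      (∀ g ∈ Dec (Av w), kp hζ κ g = 0) ∧ x = kp hζ κ ∧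
        ∀ v : {v // v ∈ T}, ((v.1.ord (κ : K) : ℤ) : ZMod p) = r v) ?_ ?_
    · rintro x ⟨κ, hκ, hκ2, rfl⟩
      exact ⟨fun v => ((v.1.ord (κ : K) : ℤ) : ZMod p), Set.mem_univ _, κ, hκ, hκ2, rfl,
        fun v => rfl⟩
    · rintro x - y - r ⟨κ, hκ, hκ2, rfl, hr⟩ ⟨κ', hκ', hκ2', rfl, hr'⟩
      refine ⟨κ * κ'⁻¹, fun v => ?_, fun g hg => ?_, ?_⟩
      · rw [ord_div_units]
        by_cases hv : v ∈ T
        · have h3 := (hr ⟨v, hv⟩).trans (hr' ⟨v, hv⟩).symm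
          rw [← ZMod.intCast_zmod_eq_zero_iff_dvd, Int.cast_sub, h3, sub_self]
        · exact dvd_sub (hκ v hv) (hκ' v hv)
      · rw [kp_div, hκ2 g hg, hκ2' g hg, sub_zero]
      · funext g
        rw [Pi.sub_apply, kp_div]
  refine hf1.subset ?_
  rintro x ⟨hx, hx1, hx2⟩
  obtain ⟨κ, hκ⟩ := kp_surj hζ hx.c hx.m
  refine ⟨κ, fun v hv => h2 k K p ζ hζ v (Av v) (av_ab v) κ fun g hg => ?_, fun g hg => ?_,
    funext fun g => (hκ g).symm⟩
  · rw [hκ]; exact hx1 v hv g hg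
  · rw [hκ]; exact hx2 g hg

end Pool.Agent.NH7.GH
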