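import Pool.Agent.NH7.GH.Defs
import Pool.Agent.NH7.GF.RkP

/-!
# C4. The fixed elements
-/

set_option autoImplicit false
set_option linter.unusedSectionVars false

namespace Pool.Agent.NH7.GH

open Matrix Pool.Agent.NH7.GF

open Pool.Agent.NH7.GF.RkP (fin_ord) in
theorem s_rkD (h2 : S_lft) : S_rkD := by
  intro p hpf G _ _ _ N ρ M _ _ φ hM Ds H hHn hHf hDsc hFG P hP
  classical
  have hsn : ∀ (g : G) (n : ℕ) (m : M), g • (n • m) = n • (g • m) := fun g n m =>
    map_nsmul (DistribSMul.toAddMonoidHom M g) n m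
  have hpne : (p : ℚ_[p]) ≠ 0 := pQ_ne
  choose d hd using hM.div
  set Ps : ℕ → M := fun n => d^[n] P with hPs
  have hPs0 : Ps 0 = P := rfl
  have hPs1 : ∀ n, p • Ps (n + 1) = Ps n := fun n => by
    show p • d^[n + 1] P = d^[n] P
    rw [Function.iterate_succ_apply']
    exact hd _
  have hPsn : ∀ n, p ^ n • Ps n = P := by
    intro n
    induction n with
    | zero => rw [pow_zero, one_smul, hPs0]
    | succ n ih => rw [pow_succ, mul_smul, hPs1, ih]
  -- the cocycles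
  have hco : ∀ n, CoM H (fun σ : H => (σ : G) • Ps n - Ps n) := by
    intro n
    refine ⟨?_, fun σ τ => ?_⟩
    · rw [IsLocallyConstant.iff_eventually_eq]
      intro x
      have hop : IsOpen {y : H | ((x⁻¹ * y : H) : G) • Ps n = Ps n} := by
        have hc : Continuous fun y : H => ((x⁻¹ * y : H) : G) :=
          continuous_subtype_val.comp (continuous_const.mul continuous_id)
        exact (hM.stab (Ps n)).preimage hc
      have hx : x ∈ {y : H | ((x⁻¹ * y : H) : G) • Ps n = Ps n} := by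
        show ((x⁻¹ * x : H) : G) • Ps n = Ps n
        rw [inv_mul_cancel, Subgroup.coe_one, one_smul]
      filter_upwards [hop.mem_nhds hx] with y hy
      have hy' : ((x⁻¹ * y : H) : G) • Ps n = Ps n := hy
      have e : (y : G) • Ps n = (x : G) • Ps n := by
        conv_rhs => rw [← hy']
        rw [smul_smul, Subgroup.coe_mul, Subgroup.coe_inv, mul_inv_cancel_left]
      show (y : G) • Ps n - Ps n = (x : G) • Ps n - Ps n
      rw [e]
    · show ((σ * τ : H) : G) • Ps n - Ps n = _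
      rw [Subgroup.coe_mul, mul_smul, smul_sub]
      abel
  obtain ⟨c, hc, hcm, hcφ⟩ := h2 p G N ρ M φ hM H (fun n σ => (σ : G) • Ps n - Ps n) hco
    (fun σ => by
      show (σ : G) • Ps 0 - Ps 0 = 0
      rw [hPs0, hP σ σ.2, sub_self])
    (fun n σ => by
      show p • ((σ : G) • Ps (n + 1) - Ps (n + 1)) = (σ : G) • Ps n - Ps n
      rw [smul_sub, ← hsn, hPs1])
  obtain ⟨c', -, hc', x, hx⟩ := hDsc c hc hcm (fun D _ n => ⟨Ps n, fun σ _ => hcφ n σ⟩)
  set C : G → Fin N → ℚ_[p] := fun g => c' ⟨g, trivial⟩ with hC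
  have hCm : ∀ g h, C (g * h) = C g + mQ (ρ g) (C h) := fun g h => hc' ⟨g, trivial⟩ ⟨h, trivial⟩
  have hCx : ∀ σ : H, cQ (c σ) = C σ + (mQ (ρ σ) x - x) := fun σ => hx σ ⟨σ, trivial⟩ rfl
  -- finite order
  have key : ∀ τ : G, ∃ k : ℕ, k ≠ 0 ∧ k • (τ • P - P) = 0 := by
    intro τ
    set y : Fin N → ℚ_[p] := C τ + mQ (ρ τ) x - x with hy
    have hQ : ∀ n : ℕ, τ • Ps n - Ps n - φ (((p : ℚ_[p]) ^ n)⁻¹ • y) ∈ fx M H := by
      intro n σ hσ
      have hs' : τ⁻¹ * σ * τ ∈ H := by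
        have := hHn.conj_mem σ hσ τ⁻¹
        rwa [inv_inv] at this
      have e1 : mQ (ρ τ) (cQ (c ⟨τ⁻¹ * σ * τ, hs'⟩)) - cQ (c ⟨σ, hσ⟩) = mQ (ρ σ) y - y := by
        have a1 := hCx ⟨τ⁻¹ * σ * τ, hs'⟩
        have a2 := hCx ⟨σ, hσ⟩
        simp only at a1 a2
        have a3 := hCm σ τ
        have a4 := hCm τ (τ⁻¹ * σ * τ)
        have a5 : τ * (τ⁻¹ * σ * τ) = σ * τ := by group
        rw [a5, a3] at a4
        have a6 : mQ (ρ τ) (mQ (ρ (τ⁻¹ * σ * τ)) x) = mQ (ρ σ) (mQ (ρ τ) x) := by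
          rw [← mQ_mul, ← map_mul, a5, map_mul, mQ_mul]
        rw [a1, a2, mQ_add, mQ_sub, a6, hy, mQ_sub, mQ_add]
        have a7 : mQ (ρ τ) (C (τ⁻¹ * σ * τ)) = C σ + mQ (ρ σ) (C τ) - C τ := by
          rw [a4]
          abel
        rw [a7]
        abel
      have e2 := congrArg (fun v => φ (((p : ℚ_[p]) ^ n)⁻¹ • v)) e1
      simp only [smul_sub, map_sub] at e2
      rw [← mQ_smul, ← mQ_smul, hM.eqv, hM.eqv, hcφ, hcφ] at e2
      simp only at e2
      have a8 : τ • ((τ⁻¹ * σ * τ) • Ps n) = σ • (τ • Ps n) := by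
        rw [smul_smul, smul_smul]
        congr 1
        group
      rw [smul_sub, a8] at e2
      rw [smul_sub, smul_sub, ← sub_eq_zero]
      rw [← sub_eq_zero] at e2
      rw [← e2]
      abel
    have hQn : ∀ n : ℕ, p ^ n • (τ • Ps n - Ps n - φ (((p : ℚ_[p]) ^ n)⁻¹ • y)) =
        τ • P - P - φ y := by
      intro n
      have e3 : p ^ n • φ (((p : ℚ_[p]) ^ n)⁻¹ • y) = φ y := by
        rw [← map_nsmul, ← Nat.cast_smul_eq_nsmul ℚ_[p], smul_smul, Nat.cast_pow,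
          mul_inv_cancel₀ (pow_ne_zero _ hpne), one_smul]
      rw [smul_sub, smul_sub, ← hsn, hPsn, e3]
    have hq0 : τ • P - P - φ y ∈ fx M H := by
      have h5 := hQ 0
      have h6 := hQn 0
      rw [pow_zero, one_smul] at h6
      rw [← h6]
      exact h5
    obtain ⟨k, hk, hk0⟩ := fin_ord (p := p) (fx M H) hFG hq0 fun n => ⟨_, hQ n, hQn n⟩
    obtain ⟨m, hm⟩ := exists_int_vec y
    obtain ⟨z, hz⟩ := hm m le_rfl
    have h7 : p ^ m • φ y = 0 := by
      rw [← map_nsmul, ← Nat.cast_smul_eq_nsmul ℚ_[p], Nat.cast_pow, ← hz]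
      exact (hM.ker _).2 ⟨z, rfl⟩
    refine ⟨k * p ^ m, mul_ne_zero hk (pow_ne_zero _ hpf.out.ne_zero), ?_⟩
    have h8 : τ • P - P = (τ • P - P - φ y) + φ y := by abel
    rw [h8, smul_add, mul_comm, mul_smul, hk0, smul_zero, zero_add, mul_comm, mul_smul, h7,
      smul_zero]
  choose k hk0 hk using key
  have hfq : Finite (G ⧸ H) := inferInstance
  cases nonempty_fintype (G ⧸ H)
  refine ⟨∏ q : G ⧸ H, k q.out, Finset.prod_ne_zero_iff.2 fun q _ => hk0 _, fun τ _ => ?_⟩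
  have h1 : τ • P = (QuotientGroup.mk τ : G ⧸ H).out • P := by
    obtain ⟨h, hh⟩ := QuotientGroup.mk_out_eq_mul H τ
    rw [hh, mul_smul, hP _ h.2]
  have h2 : (∏ q : G ⧸ H, k q.out) • (τ • P - P) = 0 := by
    rw [h1]
    obtain ⟨r, hr⟩ := Finset.dvd_prod_of_mem (fun q : G ⧸ H => k q.out)
      (Finset.mem_univ (QuotientGroup.mk τ : G ⧸ H))
    rw [hr, mul_comm, mul_smul, hk, smul_zero]
  rw [smul_sub, sub_eq_zero] at h2
  rw [hsn, h2]

end Pool.Agent.NH7.GH
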