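import Pool.Agent.NH7.GH.Defs

/-!
# C2. The good places
-/

set_option autoImplicit false

namespace Pool.Agent.NH7.GH

open Pool.Agent.NH7.GF

namespace Unr68

/-- an element which is divisible by all powers of `p` is zero -/
theorem eq_zero_of_dvd {p : ℕ} [Fact p.Prime] (x : ℤ_[p]) (h : ∀ n : ℕ, (p : ℤ_[p]) ^ n ∣ x) :
    x = 0 := by
  by_contra hx
  have h1 := (PadicInt.mem_span_pow_iff_le_valuation x hx (x.valuation + 1)).1
    (Ideal.mem_span_singleton.2 (h _))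
  omega

theorem nsmul_eq {p : ℕ} [Fact p.Prime] {N : ℕ} (n : ℕ) (y : Fin N → ℚ_[p]) :
    p ^ n • y = (p : ℚ_[p]) ^ n • y := by
  funext j
  simp

theorem iter {p : ℕ} {G : Type} [Group G] {M : Type} [AddCommGroup M] [DistribMulAction G M]
    {I : Subgroup G} (h : ∀ P ∈ fx M I, ∃ Q ∈ fx M I, p • Q = P) (n : ℕ) :
    ∀ P ∈ fx M I, ∃ Q ∈ fx M I, p ^ n • Q = P := by
  induction n with
  | zero => exact fun P hP => ⟨P, hP, by rw [pow_zero, one_smul]⟩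
  | succ n ih =>
    intro P hP
    obtain ⟨Q, hQ, e⟩ := ih P hP
    obtain ⟨R, hR, e'⟩ := h Q hQ
    exact ⟨R, hR, by rw [pow_succ, mul_smul, e', e]⟩

end Unr68

open Unr68

theorem s_unr : S_unr := by
  intro p _ G _ _ N ρ M _ _ φ hM I hρ hdiv c hc g hg
  have hp0 : (p : ℚ_[p]) ≠ 0 := by
    have h : p ≠ 0 := (Fact.out : p.Prime).ne_zero
    exact_mod_cast h
  have key : ∀ n : ℕ, ∃ z : Fin N → ℤ_[p], c g = (p : ℤ_[p]) ^ n • z := by
    intro n
    have hpn : (p : ℚ_[p]) ^ n ≠ 0 := pow_ne_zero n hp0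
    obtain ⟨P, hP⟩ := hc n
    have h1 : p ^ n • P ∈ fx M I := by
      intro h hh
      have e1 : h • P = P + φ (((p : ℚ_[p]) ^ n)⁻¹ • cQ (c h)) := by
        rw [hP h hh]
        abel
      have e2 : φ (cQ (c h)) = 0 := (hM.ker _).2 ⟨c h, rfl⟩
      rw [smul_comm h (p ^ n) P, e1, smul_add, ← map_nsmul, nsmul_eq, smul_smul,
        mul_inv_cancel₀ hpn, one_smul, e2, add_zero]
    obtain ⟨Q, hQ, e3⟩ := iter hdiv n _ h1
    obtain ⟨x, hx⟩ := hM.tor (P - Q) n (by rw [smul_sub, e3, sub_self])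
    have h2 : φ (((p : ℚ_[p]) ^ n)⁻¹ • cQ (c g)) = 0 := by
      have e4 : g • P - P = g • (P - Q) - (P - Q) := by
        rw [smul_sub, hQ g hg]
        abel
      rw [hP g hg, e4, ← hx, ← hM.eqv, hρ g hg, mQ_one, sub_self]
    obtain ⟨z, hz⟩ := (hM.ker _).1 h2
    refine ⟨z, cQ_inj ?_⟩
    rw [cQ_smul, ← hz, smul_smul, mul_inv_cancel₀ hpn, one_smul]
  funext j
  refine eq_zero_of_dvd (c g j) fun n => ?_
  obtain ⟨z, hz⟩ := key n
  exact ⟨z j, by rw [hz]; rfl⟩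

end Pool.Agent.NH7.GH
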