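import Pool.Agent.NH7.GH.UpDP
import Pool.Agent.NH7.GF.DnP

/-!
# The rational Tate modules over the extension and over the base field
-/

set_option autoImplicit false

namespace Pool.Agent.NH7.GH

open Matrix Pool.Agent.NH7.GF Pool.Agent.NH7.GF.Up

/-- the elements of the Tate module come from the base, up to a power of `p` -/
theorem up_tate (h2 : S_lft) (h5 : S_avg) (hint : Pool.Agent.NH7.BK.S_int)
    (p : ℕ) [Fact p.Prime] (G : Type) [Group G] [TopologicalSpace G]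
    [IsTopologicalGroup G] [CompactSpace G] (N : ℕ)
    (ρ : G →* Matrix (Fin N) (Fin N) ℤ_[p]) (M : Type) [AddCommGroup M] [DistribMulAction G M]
    (φ : (Fin N → ℚ_[p]) →+ M) (hM : Mo ρ M φ) (χ : G → ZMod p)
    (hχm : ∀ g h, χ (g * h) = χ g + χ h) (Ds : Set (Subgroup G)) (H : Subgroup G)
    (hH : ∀ g, g ∈ H ↔ χ g = 0) (hD : DscT M Ds ρ H φ)
    (f : ℕ → H → M) (hf : ∀ n, ShM Ds H (f n)) (h0 : ∃ m : M, ∀ σ : H, f 0 σ = (σ : G) • m - m)
    (hs : ∀ n, ∃ m : M, ∀ σ : H, p • f (n + 1) σ = f n σ + ((σ : G) • m - m)) :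
    ∃ (k : ℕ) (f' : ℕ → (⊤ : Subgroup G) → M), (∀ n, ShM Ds ⊤ (f' n)) ∧
      (∃ m : M, ∀ τ : (⊤ : Subgroup G), f' 0 τ = (τ : G) • m - m) ∧
      (∀ n, ∃ m : M, ∀ τ : (⊤ : Subgroup G), p • f' (n + 1) τ = f' n τ + ((τ : G) • m - m)) ∧
      ∀ n, ∃ m : M, ∀ (σ : H) (τ : (⊤ : Subgroup G)), (τ : G) = σ →
        p ^ k • f n σ = f' n τ + ((σ : G) • m - m) := by
  -- step 1
  obtain ⟨m0, hm0⟩ := h0
  choose mm hmm using hs
  choose dv hdv using hM.div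
  let a : ℕ → M := fun n => Nat.rec m0 (fun n b => dv (mm n + b)) n
  have ha0 : a 0 = m0 := rfl
  have has : ∀ n, p • a (n + 1) = mm n + a n := fun n => hdv _
  let g : ℕ → H → M := fun n σ => f n σ - ((σ : G) • a n - a n)
  have hgC : ∀ n, CoM H (g n) := fun n => cob_com hM H (hf n).coc (a n)
  have hg0 : ∀ σ, g 0 σ = 0 := fun σ => by
    show f 0 σ - ((σ : G) • a 0 - a 0) = 0
    rw [ha0, hm0, sub_self]
  have hgs : ∀ n σ, p • g (n + 1) σ = g n σ := fun n σ => by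
    show p • (f (n + 1) σ - ((σ : G) • a (n + 1) - a (n + 1))) = f n σ - ((σ : G) • a n - a n)
    have e : p • ((σ : G) • a (n + 1)) = (σ : G) • (mm n + a n) := by
      rw [← has]
      exact (map_nsmul (DistribSMul.toAddMonoidHom M (σ : G)) p (a (n + 1))).symm
    rw [nsmul_sub, nsmul_sub, e, has, hmm, smul_add]
    abel
  -- step 2
  obtain ⟨c, hcc, hcm, hcg⟩ := h2 p G N ρ M φ hM H g hgC hg0 hgs
  -- step 3
  have hloc : ∀ D ∈ Ds, ∀ n : ℕ, ∃ P : M, ∀ σ : H, (σ : G) ∈ D → g n σ = (σ : G) • P - P := by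
    intro D hDD n
    obtain ⟨m, hm⟩ := (hf n).tri D hDD
    refine ⟨m - a n, fun σ hσ => ?_⟩
    show f n σ - ((σ : G) • a n - a n) = (σ : G) • (m - a n) - (m - a n)
    rw [hm σ hσ, smul_sub]
    abel
  -- step 4
  obtain ⟨c', hc'c, hc'm, x, hx⟩ := hD c hcc hcm (fun D hDD n => by
    obtain ⟨P, hP⟩ := hloc D hDD n
    exact ⟨P, fun σ hσ => by rw [hcg, hP σ hσ]⟩)
  -- step 5
  have : CompactSpace (⊤ : Subgroup G) := by
    have : IsCompact ((⊤ : Subgroup G) : Set G) := by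
      rw [Subgroup.coe_top]
      exact isCompact_univ
    exact isCompact_iff_compactSpace.1 this
  obtain ⟨k, F, hF, hFc⟩ := hint p N (⊤ : Subgroup G) c' hc'c
  have hFc' : ∀ τ, cQ (F τ) = (p : ℚ_[p]) ^ k • c' τ := fun τ => by
    funext j
    exact hFc τ j
  -- the restriction to `H`
  have hres : ∀ (n : ℕ) (σ : H), φ (((p : ℚ_[p]) ^ n)⁻¹ • cQ (F ⟨(σ : G), Subgroup.mem_top _⟩)) =
      p ^ k • g n σ - ((σ : G) • φ (((p : ℚ_[p]) ^ n)⁻¹ • ((p : ℚ_[p]) ^ k • x)) -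
        φ (((p : ℚ_[p]) ^ n)⁻¹ • ((p : ℚ_[p]) ^ k • x))) := fun n σ => by
    have e2 := hx σ ⟨(σ : G), Subgroup.mem_top _⟩ rfl
    rw [← hcg, pow_phi, smul_comm, e2, smul_add, smul_add, ← hFc', map_add, smul_sub, smul_sub,
      map_sub, ← mQ_smul, ← mQ_smul, hM.eqv, add_sub_cancel_right]
  have hmul : ∀ (n : ℕ) (σ τ : (⊤ : Subgroup G)), φ (((p : ℚ_[p]) ^ n)⁻¹ • cQ (F (σ * τ))) =
      φ (((p : ℚ_[p]) ^ n)⁻¹ • cQ (F σ)) + (σ : G) • φ (((p : ℚ_[p]) ^ n)⁻¹ • cQ (F τ)) := by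
    intro n σ τ
    rw [hFc', hFc', hFc', hc'm, smul_add, smul_add, map_add, ← hM.eqv, mQ_smul, mQ_smul]
  have hstep : ∀ (n : ℕ) (τ : (⊤ : Subgroup G)), p • φ (((p : ℚ_[p]) ^ (n + 1))⁻¹ • cQ (F τ)) =
      φ (((p : ℚ_[p]) ^ n)⁻¹ • cQ (F τ)) := fun n τ => by
    have := pow_phi (φ := φ) 1 (((p : ℚ_[p]) ^ (n + 1))⁻¹ • cQ (F τ))
    rw [pow_one, pinv] at this
    exact this
  refine ⟨k, fun n τ => φ (((p : ℚ_[p]) ^ n)⁻¹ • cQ (F τ)), fun n => ?_,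
    ⟨0, fun τ => by
      beta_reduce
      rw [smul_zero, sub_zero, pow_zero, inv_one, one_smul]
      exact (hM.ker _).2 ⟨F τ, rfl⟩⟩,
    fun n => ⟨0, fun τ => by
      beta_reduce
      rw [smul_zero, sub_zero, add_zero]
      exact hstep n τ⟩, fun n => ?_⟩
  · refine ⟨⟨(phi_loc hM n).comp_continuous hF, fun σ τ => hmul n σ τ⟩, fun D hDD => ?_⟩
    obtain ⟨P, hP⟩ := hloc D hDD (n + 1)
    obtain ⟨y, hy⟩ : ∃ y, y = φ (((p : ℚ_[p]) ^ (n + 1))⁻¹ • ((p : ℚ_[p]) ^ k • x)) := ⟨_, rfl⟩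
    obtain ⟨Y, hY⟩ : ∃ Y : M, Y = p ^ k • P - y := ⟨_, rfl⟩
    let E : G → M := fun s =>
      φ (((p : ℚ_[p]) ^ (n + 1))⁻¹ • cQ (F ⟨s, Subgroup.mem_top _⟩)) - (s • Y - Y)
    obtain ⟨w, hw⟩ := h5 p G χ hχm D M (fun s => DistribSMul.toAddMonoidHom M s) E
      (fun s _ t _ => by
        show φ (((p : ℚ_[p]) ^ (n + 1))⁻¹ • cQ (F ⟨s * t, Subgroup.mem_top _⟩)) -
            ((s * t) • Y - Y) =
          φ (((p : ℚ_[p]) ^ (n + 1))⁻¹ • cQ (F ⟨s, Subgroup.mem_top _⟩)) - (s • Y - Y) +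
            s • (φ (((p : ℚ_[p]) ^ (n + 1))⁻¹ • cQ (F ⟨t, Subgroup.mem_top _⟩)) - (t • Y - Y))
        have e1 := hmul (n + 1) ⟨s, Subgroup.mem_top _⟩ ⟨t, Subgroup.mem_top _⟩
        have e2 : (⟨s, Subgroup.mem_top _⟩ * ⟨t, Subgroup.mem_top _⟩ : (⊤ : Subgroup G)) =
          ⟨s * t, Subgroup.mem_top _⟩ := rfl
        rw [e2] at e1
        rw [e1, mul_smul, smul_sub, smul_sub]
        abel)
      (fun s hs hs0 => by
        have hsH : s ∈ H := (hH s).2 hs0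
        have e1 := hres (n + 1) ⟨s, hsH⟩
        have e2 := hP ⟨s, hsH⟩ hs
        show φ (((p : ℚ_[p]) ^ (n + 1))⁻¹ • cQ (F ⟨s, Subgroup.mem_top _⟩)) - (s • Y - Y) = 0
        have e3 : s • (p ^ k • P) = p ^ k • (s • P) :=
          map_nsmul (DistribSMul.toAddMonoidHom M s) (p ^ k) P
        rw [← hy] at e1
        have e1' : φ (((p : ℚ_[p]) ^ (n + 1))⁻¹ • cQ (F ⟨s, Subgroup.mem_top _⟩)) =
          p ^ k • g (n + 1) ⟨s, hsH⟩ - (s • y - y) := e1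
        have e2' : g (n + 1) ⟨s, hsH⟩ = s • P - P := e2
        rw [e1', e2', hY]
        simp only [smul_sub, e3]
        abel)
    refine ⟨p • Y + w, fun σ hσ => ?_⟩
    have e1 : p • (φ (((p : ℚ_[p]) ^ (n + 1))⁻¹ • cQ (F σ)) - ((σ : G) • Y - Y)) =
      (σ : G) • w - w := hw σ hσ
    have e3 : (σ : G) • (p • Y) = p • ((σ : G) • Y) :=
      map_nsmul (DistribSMul.toAddMonoidHom M (σ : G)) p Y
    rw [smul_sub, hstep, smul_sub] at e1
    rw [smul_add, e3, add_sub_add_comm, ← e1]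
    abel
  · refine ⟨p ^ k • a n + φ (((p : ℚ_[p]) ^ n)⁻¹ • ((p : ℚ_[p]) ^ k • x)), fun σ τ hστ => ?_⟩
    have e0 : τ = ⟨(σ : G), Subgroup.mem_top _⟩ := Subtype.ext hστ
    have e1 := hres n σ
    have e2 : f n σ = g n σ + ((σ : G) • a n - a n) := by
      show f n σ = f n σ - ((σ : G) • a n - a n) + ((σ : G) • a n - a n)
      abel
    have e3 : (σ : G) • (p ^ k • a n) = p ^ k • ((σ : G) • a n) :=
      map_nsmul (DistribSMul.toAddMonoidHom M (σ : G)) (p ^ k) (a n)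
    have e4 : p ^ k • f n σ = p ^ k • g n σ + (p ^ k • ((σ : G) • a n) - p ^ k • a n) := by
      rw [← smul_sub (p ^ k) ((σ : G) • a n) (a n), ← smul_add, ← e2]
    beta_reduce
    rw [e0, e1, e4, smul_add (σ : G), e3]
    abel

/-- the restriction is injective on the Tate module -/
theorem inj_tate (h5 : S_avg) (p : ℕ) [Fact p.Prime] (G : Type) [Group G] [TopologicalSpace G]
    (χ : G → ZMod p) (hχm : ∀ g h, χ (g * h) = χ g + χ h) (H : Subgroup G)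
    (hH : ∀ g, g ∈ H ↔ χ g = 0) (M : Type) [AddCommGroup M] [DistribMulAction G M]
    (Ds : Set (Subgroup G)) (f : ℕ → (⊤ : Subgroup G) → M) (hf : ∀ n, ShM Ds ⊤ (f n))
    (hs : ∀ n, ∃ m : M, ∀ σ : (⊤ : Subgroup G), p • f (n + 1) σ = f n σ + ((σ : G) • m - m))
    (h1 : ∀ n, ∃ m : M, ∀ σ : H, f n ⟨σ, Subgroup.mem_top _⟩ = (σ : G) • m - m) :
    ∀ n, ∃ m : M, ∀ σ : (⊤ : Subgroup G), f n σ = (σ : G) • m - m := by
  -- the multiples by `p` are coboundaries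
  have h2 : ∀ n, ∃ m : M, ∀ σ : (⊤ : Subgroup G), p • f n σ = (σ : G) • m - m := by
    intro n
    obtain ⟨m, hm⟩ := h1 n
    obtain ⟨w, hw⟩ := h5 p G χ hχm ⊤ M (fun g => DistribSMul.toAddMonoidHom M g)
      (fun g => f n ⟨g, Subgroup.mem_top _⟩ - (g • m - m)) (fun g _ h _ => by
        have e1 := (hf n).coc.mul ⟨g, Subgroup.mem_top _⟩ ⟨h, Subgroup.mem_top _⟩
        have e2 : f n ⟨g * h, Subgroup.mem_top _⟩ = f n ⟨g, Subgroup.mem_top _⟩ +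
            g • f n ⟨h, Subgroup.mem_top _⟩ := e1
        show f n ⟨g * h, Subgroup.mem_top _⟩ - ((g * h) • m - m) =
          (f n ⟨g, Subgroup.mem_top _⟩ - (g • m - m)) +
            g • (f n ⟨h, Subgroup.mem_top _⟩ - (h • m - m))
        rw [e2, mul_smul, smul_sub, smul_sub]
        abel) (fun h _ hh => by
        have e1 := hm ⟨h, (hH h).2 hh⟩
        show f n ⟨h, Subgroup.mem_top _⟩ - (h • m - m) = 0
        rw [sub_eq_zero]
        exact e1)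
    refine ⟨w + p • m, fun σ => ?_⟩
    have e := hw σ (Subgroup.mem_top _)
    have e' : p • (f n σ - ((σ : G) • m - m)) = (σ : G) • w - w := e
    have e3 : (σ : G) • (p • m) = p • ((σ : G) • m) := smul_comm _ _ _
    rw [smul_add, e3]
    rw [smul_sub, smul_sub, sub_eq_iff_eq_add] at e'
    rw [e']
    abel
  intro n
  obtain ⟨m, hm⟩ := hs n
  obtain ⟨m', hm'⟩ := h2 (n + 1)
  refine ⟨m' - m, fun σ => ?_⟩
  have e := hm σ
  rw [hm' σ] at e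
  rw [smul_sub]
  rw [← sub_eq_iff_eq_add] at e
  rw [← e]
  abel


end Pool.Agent.NH7.GH
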