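import Pool.Agent.NH7.GH.UpV

/-!
# The cocycles with values in `T` and the descent, local divisibility
-/

set_option autoImplicit false

namespace Pool.Agent.NH7.GH

open Matrix Pool.Agent.NH7.GF Pool.Agent.NH7.GF.Up

theorem dscT_of_dsc (h4 : S_lcl) (p : ℕ) [Fact p.Prime] (G : Type) [Group G] [TopologicalSpace G]
    (N : ℕ) (ρ : G →* Matrix (Fin N) (Fin N) ℤ_[p]) (M : Type) [AddCommGroup M]
    [DistribMulAction G M] (φ : (Fin N → ℚ_[p]) →+ M) (hM : Mo ρ M φ) (Ds : Set (Subgroup G))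
    (H : Subgroup G) (hLd : ∀ D ∈ Ds, Ld M p (D ⊓ H)) (hD : Dsc Ds ρ H) : DscT M Ds ρ H φ := by
  classical
  intro c hcc hcm hloc
  have hL : LTV Ds ρ H fun σ => cQ (c σ) := by
    refine ⟨cQ_cont.comp hcc, fun σ τ => ?_, fun D hDD => ?_⟩
    · beta_reduce
      rw [hcm, cQ_add, cQ_mul]
    · have h5 := h4 p G N ρ M φ hM (D ⊓ H) (hLd D hDD)
        (fun x => if h : x ∈ H then c ⟨x, h⟩ else 0) (fun n => by
          obtain ⟨m, hm⟩ := hloc D hDD n
          refine ⟨m, fun x hx => ?_⟩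
          have hxH : x ∈ H := hx.2
          rw [dif_pos hxH]
          exact hm ⟨x, hxH⟩ hx.1)
      obtain ⟨u, hu⟩ := h5
      refine ⟨u, fun σ hσ => ?_⟩
      have h6 := hu σ ⟨hσ, σ.2⟩
      rw [dif_pos σ.2] at h6
      exact h6
  obtain ⟨c', hc', x, hx⟩ := hD _ hL
  exact ⟨c', hc'.cont, hc'.mul, x, hx⟩

end Pool.Agent.NH7.GH
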